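import Pool.Agent.U426.PA.E

/-!
# Finitely many valuation rings, with domination
-/

set_option autoImplicit false
set_option linter.unusedVariables false
set_option linter.unusedSectionVars false

namespace Pool.Agent.U426.PB

open IsLocalRing Pool.Agent.TH188.QS Pool.Agent.W418.LU2 Pool.Agent.H918R2.Quad
  Pool.Agent.TH188.ARC Pool.Agent.U426.PA

variable {O F : Type} [CommRing O] [Field F] [Algebra O F]

/-- The local ring of `M'` at the centre of `W` contains that of `M`. -/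
def Dm (W : ValuationSubring F) (M M' : Submodule O F) : Prop :=
  ∀ Q, LR W M Q → ∃ Q', LR W M' Q' ∧ Q ≤ Q'

lemma Dm.trans {W : ValuationSubring F} {M M' M'' : Submodule O F} (h : Dm W M M')
    (h' : Dm W M' M'') : Dm W M M'' := by
  intro Q hQ
  obtain ⟨Q', hQ', hle⟩ := h Q hQ
  obtain ⟨Q'', hQ'', hle'⟩ := h' Q' hQ'
  exact ⟨Q'', hQ'', hle.trans hle'⟩

/-- One step at `V`: the effect on all the local rings. -/
theorem gstep' [IsNoetherianRing O] [IsDomain O] {V : ValuationSubring F}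
    (hOV : ∀ o, algebraMap O F o ∈ V) {ϖ : O} (hϖ0 : algebraMap O F ϖ ≠ 0)
    (hϖ : V.valuation (algebraMap O F ϖ) < 1) {M : Submodule O F} (hM : M.FG) {QV : Subring F}
    (hQV : LR V M QV) :
    ∃ (D : ℕ) (M' : Submodule O F), 1 ≤ D ∧ M'.FG ∧ M' ≤ M ^ D ∧
      (∀ y ∈ M ^ D, ϖ • y ∈ M') ∧ (∃ g ∈ M', g ≠ 0) ∧
      (∀ W : ValuationSubring F, (∀ o, algebraMap O F o ∈ W) → ∀ Q, LR W M Q →
        (Q = QV → (∃ e, Mi W.toSubring Q e) ∧ Q ≤ W.toSubring ∧ IC W.toSubring Q ∧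
          LR W M' (qt W.toSubring Q)) ∧
        (Q ≠ QV → ¬ Sp M W V → LR W M' Q)) ∧
      (∀ W U : ValuationSubring F, (∀ o, algebraMap O F o ∈ W) → (∀ o, algebraMap O F o ∈ U) →
        Sp M' W U → Sp M W U) ∧
      ∀ W : ValuationSubring F, (∀ o, algebraMap O F o ∈ W) → Dm W M M' := by
  classical
  obtain ⟨g, hg, hg0, hMV, rfl⟩ := hQV
  obtain ⟨G, hG⟩ := hM
  have hGM : ∀ j ∈ G, j ∈ M := fun j hj => by rw [← hG]; exact Submodule.subset_span hj
  have hM : M.FG := ⟨G, hG⟩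
  have hk : ∀ j : F, ∃ k₀ : ℕ, j ∈ M → j ≠ 0 → (∀ m ∈ M, m / j ∈ V) →
      ∃ s : Finset (chart O M j).toSubring, (∀ b : (chart O M j).toSubring,
        b ∈ Ideal.span (s : Set (chart O M j).toSubring) ↔ V.valuation (b : F) < 1) ∧
      ∀ k, k₀ ≤ k → ∀ y ∈ s, (y : F) * j ^ k ∈ M ^ k := by
    intro j
    by_cases h : j ∈ M ∧ j ≠ 0 ∧ ∀ m ∈ M, m / j ∈ V
    · obtain ⟨k₀, s, h1, h2⟩ := exists_bound hOV hM h.1 h.2.1 h.2.2
      exact ⟨k₀, fun _ _ _ => ⟨s, h1, h2⟩⟩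
    · exact ⟨0, fun h1 h2 h3 => absurd ⟨h1, h2, h3⟩ h⟩
  choose kk hkk using hk
  set k : ℕ := max 1 (max (kk g) (G.sup kk)) with hkdef
  have hk1 : 1 ≤ k := le_max_left _ _
  have hkg : kk g ≤ k := (le_max_left _ _).trans (le_max_right _ _)
  have hkG : ∀ j ∈ G, kk j ≤ k := fun j hj =>
    (Finset.le_sup hj).trans ((le_max_right _ _).trans (le_max_right _ _))
  obtain ⟨s, hs, hks⟩ := hkk g hg hg0 hMV
  obtain ⟨g', hg', hg'0, hM'V, -, hlo⟩ := step_core hOV hϖ0 hϖ hg hg0 hMV s hs k (hks k hkg)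
  have hBV := chart_le_V hOV hMV
  refine ⟨k + 1, cut V hOV (M ^ (k + 1)) (g ^ (k + 1)), Nat.succ_le_succ (Nat.zero_le _), ?_,
    fun m hm => hm.1, ?_, ⟨g', hg', hg'0⟩, ?_, ?_, ?_⟩
  · have h1 : (M ^ (k + 1)).FG := hM.pow _
    have h2 : IsNoetherian O (M ^ (k + 1) : Submodule O F) := isNoetherian_of_fg_of_noetherian _ h1
    have h3 : IsNoetherian O (cut V hOV (M ^ (k + 1)) (g ^ (k + 1))) :=
      isNoetherian_of_le fun m hm => hm.1
    exact Module.Finite.iff_fg.1 inferInstance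
  · intro y hy
    refine ⟨Submodule.smul_mem _ _ hy, ?_⟩
    rw [Algebra.smul_def, mul_div_assoc, map_mul]
    exact mul_lt_one_aux' hϖ ((V.valuation_le_one_iff _).2 (hBV (pow_div_mem hg0 _ y hy)))
  · rintro W hOW Q ⟨gW, hgW, hgW0, hMgW, hQ⟩
    -- the generator of largest value
    obtain ⟨j, hjG, hj0, hMW⟩ := exists_gen_max' hOW hG hg hg0
    have hjM := hGM j hjG
    have hQj : lo W.toSubring (chart O M j).toSubring = Q := by
      rw [← hQ]
      exact lo_chart_eq hOW hjM hj0 hgW hgW0 hMW hMgW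
    obtain ⟨h1, h2⟩ := step_LR' hOV hϖ0 hϖ hg hg0 hMV hk1 hjM hj0 (fun h => by
      obtain ⟨s, hs, hks⟩ := hkk j hjM hj0 h
      exact ⟨s, hs, hks k (hkG j hjG)⟩) hOW hMW
    rw [hQj] at h1 h2
    have hBW := chart_le_V hOW hMW
    refine ⟨fun h => ?_, h2⟩
    obtain ⟨h3, h4⟩ := h1 h
    refine ⟨h3, ?_, ?_, h4⟩
    · rw [← hQj]; exact lo_le hBW
    · rw [← hQj]; exact ic_lo hBW
  · intro W U hOW hOU hsp
    refine Sp.mono hOW hOU ?_ hsp
    obtain ⟨j, hjG, hj0, hMW⟩ := exists_gen_max' hOW hG hg hg0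
    have hjM := hGM j hjG
    obtain ⟨x, hx, hx0, hxW, hxc⟩ := step_dom hOV hϖ0 hϖ hg hg0 hMV hk1 hjM hj0 (fun h => by
      obtain ⟨s, hs, hks⟩ := hkk j hjM hj0 h
      exact ⟨s, hs, hks k (hkG j hjG)⟩) hOW hMW
    exact ⟨j, hjM, hj0, hMW, x, hx, hx0, hxW, hxc⟩
  · rintro W hOW Q ⟨gW, hgW, hgW0, hMgW, hQ⟩
    obtain ⟨j, hjG, hj0, hMW⟩ := exists_gen_max' hOW hG hg hg0
    have hjM := hGM j hjG
    obtain ⟨x, hx, hx0, hxW, hxc⟩ := step_dom hOV hϖ0 hϖ hg hg0 hMV hk1 hjM hj0 (fun h => by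
      obtain ⟨s, hs, hks⟩ := hkk j hjM hj0 h
      exact ⟨s, hs, hks k (hkG j hjG)⟩) hOW hMW
    refine ⟨_, ⟨x, hx, hx0, hxW, rfl⟩, ?_⟩
    rw [← hQ, ← lo_chart_eq hOW hjM hj0 hgW hgW0 hMW hMgW]
    exact lo_mono hxc

/-- The treatment of one trait. -/
theorem one_trait' [IsNoetherianRing O] [IsDomain O] {M₀ : Submodule O F} {T : Type}
    (W : T → ValuationSubring F) (hW : ∀ t, Ad M₀ (W t)) (t : T) (n : ℕ) :
    ∀ {D : ℕ} {M : Submodule O F}, Cm M₀ D M → Lv (W t) M n →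
    ∃ (D' : ℕ) (M' : Submodule O F), Cm M₀ D' M' ∧ Lv (W t) M' 0 ∧
      (∀ s u, Sp M' (W s) (W u) → Sp M (W s) (W u)) ∧
      (∀ s, ¬ Sp M (W s) (W t) → ∀ k, Lv (W s) M k → Lv (W s) M' k) ∧
      ((∀ s u, Sp M (W s) (W u) → Sp M' (W s) (W u)) →
        ∀ s, Sp M (W s) (W t) → Sp M (W t) (W s) → ∀ k, Lv (W s) M k → Lv (W s) M' k) ∧
      ∀ s, Dm (W s) M M' := by
  induction n with
  | zero =>
    intro D M hM h
    exact ⟨D, M, hM, h, fun _ _ h => h, fun _ _ _ h => h, fun _ _ _ _ _ h => h,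
      fun _ Q hQ => ⟨Q, hQ, le_rfl⟩⟩
  | succ n ih =>
    intro D M hM h
    obtain ⟨QV, hQV, hrest⟩ := id h
    obtain ⟨ϖ, hϖ0, hϖ⟩ := (hW t).pos
    obtain ⟨D₁, M₁, hD₁, hM₁, hle₁, hϖ₁, hne₁, hst, hsp, hdm⟩ := gstep' (hW t).O_mem hϖ0 hϖ hM.fg hQV
    have hCm := cm_step hM hD₁ hM₁ hle₁ hϖ0 hϖ₁ hne₁
    have huniq : ∀ Q, LR (W t) M Q → Q = QV := fun Q hQ => hQ.unique (hW t).O_mem hQV
    have h1 : Lv (W t) M₁ n := (lv_step (hW t).O_mem (fun Q hQ =>
      ⟨((hst _ (hW t).O_mem) Q hQ).1, fun hne => absurd (huniq Q hQ) hne⟩) h).2 hQV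
    have h2 : ∀ s, ¬ Sp M (W s) (W t) → ∀ k, Lv (W s) M k → Lv (W s) M₁ k := fun s hs k hk =>
      (lv_step (hW s).O_mem (fun Q hQ => ⟨((hst _ (hW s).O_mem) Q hQ).1,
        fun hne => ((hst _ (hW s).O_mem) Q hQ).2 hne hs⟩) hk).1
    have h3 : ∀ s, Sp M (W s) (W t) → Sp M (W t) (W s) → ∀ k, Lv (W s) M k → Lv (W s) M₁ k :=
      fun s hs hs' k hk => (lv_step (hW s).O_mem (fun Q hQ => ⟨((hst _ (hW s).O_mem) Q hQ).1,
        fun hne => absurd (huniq Q (hs.lr (hW s).O_mem (hW t).O_mem hs' hQ)) hne⟩) hk).1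
    obtain ⟨D', M', hM', h0, hmono, hp1, hp2, hdm'⟩ := ih hCm h1
    refine ⟨D', M', hM', h0, fun s u hsu => hsp _ _ (hW s).O_mem (hW u).O_mem (hmono s u hsu),
      fun s hs k hk => hp1 s (fun h => hs (hsp _ _ (hW s).O_mem (hW t).O_mem h)) k (h2 s hs k hk),
      fun hall s hs hs' k hk => hp2 (fun s u h => hall s u (hsp _ _ (hW s).O_mem (hW u).O_mem h)) s
        (hmono _ _ (hall _ _ hs)) (hmono _ _ (hall _ _ hs')) k (h3 s hs hs' k hk),
      fun s => (hdm _ (hW s).O_mem).trans (hdm' s)⟩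

/-- The treatment of finitely many traits. -/
theorem all_traits' [IsNoetherianRing O] [IsDomain O] {M₀ : Submodule O F} {T : Type} [Finite T]
    (W : T → ValuationSubring F) (hW : ∀ t, Ad M₀ (W t)) (c : ℕ) :
    ∀ {D : ℕ} {M : Submodule O F}, Cm M₀ D M →
    {x : T × T | Sp M (W x.1) (W x.2)}.ncard = c →
    ∃ (D' : ℕ) (M' : Submodule O F), Cm M₀ D' M' ∧ (∀ t, Lv (W t) M' 0) ∧
      ∀ t, Dm (W t) M M' := by
  classical
  have := Fintype.ofFinite T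
  induction c using Nat.strong_induction_on with
  | _ c ih =>
  intro D M hM hc
  let r : T → ℕ := fun t => (Finset.univ.filter fun s => Sp M (W t) (W s)).card
  have key : ∀ S : Finset T,
      (∃ (D' : ℕ) (M' : Submodule O F), Cm M₀ D' M' ∧ (∀ t, Lv (W t) M' 0) ∧
        ∀ t, Dm (W t) M M') ∨
      ∃ (D' : ℕ) (M' : Submodule O F), Cm M₀ D' M' ∧ (∀ t, Dm (W t) M M') ∧
        (∀ s u, Sp M' (W s) (W u) ↔ Sp M (W s) (W u)) ∧ ∀ t ∈ S, Lv (W t) M' 0 := by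
    intro S
    induction S using Finset.induction_on_max_value r with
    | empty => exact Or.inr ⟨D, M, hM, fun _ Q hQ => ⟨Q, hQ, le_rfl⟩,
        fun _ _ => Iff.rfl, fun t ht => absurd ht (Finset.notMem_empty _)⟩
    | insert a S haS hmax hS =>
      rcases hS with hS | ⟨D₂, M₂, hM₂, hd₂, hiff, hS⟩
      · exact Or.inl hS
      obtain ⟨n, hn⟩ := (hW a).lev D₂ M₂ hM₂
      obtain ⟨D₃, M₃, hM₃, h0, hmono, hp1, hp2, hd₃⟩ := one_trait' W hW a n hM₂ hn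
      by_cases hall : ∀ s u, Sp M₂ (W s) (W u) → Sp M₃ (W s) (W u)
      · refine Or.inr ⟨D₃, M₃, hM₃, fun s => (hd₂ s).trans (hd₃ s),
          fun s u => ⟨fun h => (hiff s u).1 (hmono s u h),
          fun h => hall s u ((hiff s u).2 h)⟩, fun t ht => ?_⟩
        rcases Finset.mem_insert.1 ht with rfl | ht
        · exact h0
        · by_cases hta : Sp M₂ (W t) (W a)
          · refine hp2 hall t hta ?_ 0 (hS t ht)
            rw [hiff] at hta ⊢
            have hsub : (Finset.univ.filter fun s => Sp M (W a) (W s)) ⊆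
                (Finset.univ.filter fun s => Sp M (W t) (W s)) := by
              intro s hs
              rw [Finset.mem_filter] at hs ⊢
              exact ⟨Finset.mem_univ _, hta.trans' (hW a).O_mem (hW s).O_mem hs.2⟩
            have heq := Finset.eq_of_subset_of_card_le hsub (hmax t ht)
            have htt : t ∈ (Finset.univ.filter fun s => Sp M (W t) (W s)) :=
              Finset.mem_filter.2 ⟨Finset.mem_univ _, Sp.refl' (hW t).O_mem hM.fg hM.ne⟩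
            rw [← heq] at htt
            exact (Finset.mem_filter.1 htt).2
          · exact hp1 t hta 0 (hS t ht)
      · left
        push Not at hall
        obtain ⟨s, u, hsu, hnsu⟩ := hall
        have hlt : {x : T × T | Sp M₃ (W x.1) (W x.2)}.ncard <
            {x : T × T | Sp M (W x.1) (W x.2)}.ncard := by
          refine Set.ncard_lt_ncard ?_ (Set.toFinite _)
          refine ⟨fun x hx => (hiff _ _).1 (hmono _ _ hx), fun h => hnsu ?_⟩
          exact h (show ((s, u) : T × T) ∈ {x : T × T | Sp M (W x.1) (W x.2)} from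
            (hiff _ _).1 hsu)
        obtain ⟨D₄, M₄, hM₄, h1, h2⟩ := ih _ (by rw [← hc]; exact hlt) hM₃ rfl
        exact ⟨D₄, M₄, hM₄, h1, fun t => ((hd₂ t).trans (hd₃ t)).trans (h2 t)⟩
  rcases key Finset.univ with h | ⟨D', M', hM', hd, -, h⟩
  · exact h
  · exact ⟨D', M', hM', fun t => h t (Finset.mem_univ t), hd⟩

end Pool.Agent.U426.PB
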