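import Pool.Agent.U426.PB.A
import Pool.Agent.TH188.QS.Cls

/-!
# One blowing up for finitely many divergent valuations
-/

set_option autoImplicit false
set_option linter.unusedVariables false
set_option linter.unusedSectionVars false

namespace Pool.Agent.U426.PB

open IsLocalRing Pool.Agent.TH188.QS Pool.Agent.W418.LU2 Pool.Agent.TH188.ARC
  Pool.Agent.U426.PA

/-- Some ring in the sequence of quadratic transforms is regular. -/
theorem reg_seq {R K : Type} [CommRing R] (hR : HJ R) [Field K] (ρ : R →+* K) {T : Set K}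
    (hT : T.Finite) (hfr : ∀ z : K, Fr (Subring.closure ((ρ.range : Set K) ∪ T)) z)
    {V : ValuationSubring K} (hAV : Subring.closure ((ρ.range : Set K) ∪ T) ≤ V.toSubring)
    (hne0 : ∃ y ∈ Subring.closure ((ρ.range : Set K) ∪ T), y ≠ 0 ∧ V.valuation y < 1)
    (hdv : Dv V (qseq V (Subring.closure ((ρ.range : Set K) ∪ T)))) :
    ∃ m, IsRegularLocalRing (qseq V (Subring.closure ((ρ.range : Set K) ∪ T)) m) := by
  obtain ⟨S, _, _, _, φ, hφr, hwj⟩ := hR K ρ T hT hfr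
  rw [← hφr] at hAV hne0 hdv ⊢
  obtain ⟨r, f, D, hf, hgen, hdet⟩ := hwj
  have hφV : ∀ s, φ s ∈ V := fun s => hAV ⟨s, rfl⟩
  have hnoe : IsNoetherianRing φ.range := isNoetherianRing_of_surjective _ _ φ.rangeRestrict
    φ.rangeRestrict_surjective
  obtain ⟨-, hmi⟩ := seq_fg (Q := qseq V φ.range) hAV hne0 rfl (fun n => rfl)
  have hD : ∀ j, Der φ (fun s => φ (D j s)) := fun j =>
    { add := fun a b => by rw [map_add, map_add]
      mul := fun a b => by
        rw [Derivation.leibniz, smul_eq_mul, smul_eq_mul, map_add, map_mul, map_mul] }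
  exact exists_regular (Q := qseq V φ.range) hφV hD (C := 1) one_ne_zero
    (fun j s => by rw [one_mul]; exact hφV _) hf hgen hdet rfl (fun n => rfl) hmi hdv

/-- One blowing up for finitely many valuations. -/
theorem main_u {R K : Type} [CommRing R] (hR : HJ R) [Field K] (ρ : R →+* K) {T : Set K}
    (hT : T.Finite) {B : Subring K} (hB : B = Subring.closure ((ρ.range : Set K) ∪ T))
    (hfr : ∀ z : K, Fr B z) {ι : Type} [Finite ι] (V : ι → ValuationSubring K)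
    (hBV : ∀ i, B ≤ (V i).toSubring) (hne : ∀ i, V i ≠ ⊤)
    (hdv : ∀ i, ∀ T' : Set K, T'.Finite →
      Subring.closure ((ρ.range : Set K) ∪ T') ≤ (V i).toSubring →
      Dv (V i) (qseq (V i) (Subring.closure ((ρ.range : Set K) ∪ T'))))
    (I₀ : Ideal B) (hI₀ : I₀ ≠ ⊥) :
    ∃ I₁ : Ideal B, I₁ ≠ ⊥ ∧ ∀ i, ∃ f ∈ I₀ * I₁, f ≠ 0 ∧
      (∀ a ∈ I₀ * I₁, (a : K) / (f : K) ∈ V i) ∧
      IsRegularLocalRing (lo (V i).toSubring (Pool.Agent.W418.LU2.chart B (I₀ * I₁) f)) := by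
  classical
  have hnoe : IsNoetherianRing B := by
    refine (main hR (V := ⊤) ρ hT (B := B) (fun _ _ => trivial) hB.ge (fun b hb => ?_)
      (Or.inl ⟨0, rfl⟩)).2
    exact ⟨b, hB ▸ hb, 1, Subring.one_mem _, one_ne_zero, by rw [inv_one]; exact B.one_mem,
      by rw [inv_one, mul_one]⟩
  have hOV : ∀ i, ∀ o : B, algebraMap B K o ∈ V i := fun i o => hBV i o.2
  have hpos : ∀ i, ∃ ϖ : B, (ϖ : K) ≠ 0 ∧ (V i).valuation (ϖ : K) < 1 := by
    intro i
    obtain ⟨z, hz⟩ : ∃ z : K, z ∉ V i := by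
      by_contra hcon
      push Not at hcon
      exact hne i (eq_top_iff.2 fun z _ => hcon z)
    obtain ⟨a, ha, b, hb, hb0, rfl⟩ := hfr z
    refine ⟨⟨b, hb⟩, hb0, ?_⟩
    by_contra hcon
    apply hz
    have h1 : b⁻¹ ∈ V i := by
      by_contra h2
      exact hcon ((val_lt_iff hb0).2 h2)
    exact (V i).mul_mem _ _ (hBV i ha) h1
  -- the submodule
  set M₀ : Submodule B K := Submodule.map (Algebra.linearMap B K) I₀ with hM₀def
  have hM₀mem : ∀ x : K, x ∈ M₀ ↔ ∃ a ∈ I₀, (a : K) = x := fun x => Iff.rfl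
  have hM₀ : M₀.FG := Submodule.FG.map _ ((isNoetherianRing_iff_ideal_fg B).1 hnoe I₀)
  have hM₀ne : ∃ g ∈ M₀, g ≠ 0 := by
    obtain ⟨a, ha, ha0⟩ := Submodule.exists_mem_ne_zero_of_ne_bot hI₀
    exact ⟨a, ⟨a, ha, rfl⟩, fun h => ha0 (Subtype.ext h)⟩
  have hAd : ∀ i, Ad M₀ (V i) := by
    intro i
    obtain ⟨ϖ, hϖ0, hϖ⟩ := hpos i
    refine ⟨hOV i, ⟨ϖ, hϖ0, hϖ⟩, ?_⟩
    intro D M hM
    obtain ⟨g₀, hg₀, hg₀0⟩ := hM.ne
    obtain ⟨g, hg, hg0, hMW⟩ := exists_gen_max (hOV i) hM.fg hg₀ hg₀0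
    obtain ⟨N, m, hm⟩ := exists_fin_family hM.fg
    let T' : Set K := T ∪ Set.range fun j => m j / g
    have hT' : T'.Finite := hT.union (Set.finite_range _)
    have hch : (Pool.Agent.H918R2.Quad.chart B M g).toSubring =
        Subring.closure ((ρ.range : Set K) ∪ T') := by
      rw [← hm, chart_span, adjoin_toSubring]
      apply le_antisymm
      · rw [Subring.closure_le]
        rintro z (⟨b, rfl⟩ | hz)
        · have h1 : (b : K) ∈ Subring.closure ((ρ.range : Set K) ∪ T) := hB ▸ b.2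
          refine Subring.closure_mono ?_ h1
          rintro w (hw | hw)
          · exact Or.inl hw
          · exact Or.inr (Or.inl hw)
        · exact Subring.subset_closure (Or.inr (Or.inr hz))
      · rw [Subring.closure_le]
        rintro z (hz | hz | hz)
        · refine Subring.subset_closure (Or.inl ⟨⟨z, ?_⟩, rfl⟩)
          rw [hB]
          exact Subring.subset_closure (Or.inl hz)
        · refine Subring.subset_closure (Or.inl ⟨⟨z, ?_⟩, rfl⟩)
          rw [hB]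
          exact Subring.subset_closure (Or.inr hz)
        · exact Subring.subset_closure (Or.inr hz)
    have hle : B ≤ Subring.closure ((ρ.range : Set K) ∪ T') := by
      rw [← hch]
      intro b hb
      exact (Pool.Agent.H918R2.Quad.chart B M g).algebraMap_mem ⟨b, hb⟩
    have hV' : Subring.closure ((ρ.range : Set K) ∪ T') ≤ (V i).toSubring := by
      rw [← hch]
      exact chart_le_V (hOV i) hMW
    obtain ⟨n, hn⟩ := reg_seq hR ρ hT' (fun z => by
      obtain ⟨a, ha, b, hb, hb0, h⟩ := hfr z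
      exact ⟨a, hle ha, b, hle hb, hb0, h⟩) hV' ⟨ϖ, hle ϖ.2, hϖ0, hϖ⟩ (hdv i T' hT' hV')
    rw [← hch, qseq_eq] at hn
    exact ⟨n, _, ⟨g, hg, hg0, hMW, rfl⟩, n, le_rfl, hn⟩
  obtain ⟨D, M, hM, hlv, hdm⟩ := all_traits' V hAd _ (Cm.init hM₀ hM₀ne) rfl
  -- the ideal
  have hM₀1 : M₀ ≤ 1 := by
    rintro x ⟨a, ha, rfl⟩
    exact Submodule.mem_one.2 ⟨a, rfl⟩
  have hM1 : ∀ x ∈ M, ∃ b : B, (b : K) = x := fun x hx =>
    Submodule.mem_one.1 (((hM.le.trans (pow_le_pow_left' hM₀1 D)).trans (one_pow D).le) hx)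
  let I₁ : Ideal B := M.comap (Algebra.linearMap B K)
  have hI₁ : ∀ b : B, b ∈ I₁ ↔ (b : K) ∈ M := fun b => Iff.rfl
  refine ⟨I₁, ?_, fun i => ?_⟩
  · obtain ⟨g, hg, hg0⟩ := hM.ne
    obtain ⟨b, rfl⟩ := hM1 g hg
    intro h
    have h1 : b ∈ I₁ := hg
    rw [h, Ideal.mem_bot] at h1
    exact hg0 (by rw [h1]; rfl)
  obtain ⟨g, hg, hg0, hgV, hreg⟩ := (hlv i).rg
  obtain ⟨b₁, rfl⟩ := hM1 g hg
  obtain ⟨x₀, hx₀, hx₀0⟩ := hM₀ne
  obtain ⟨f₀, hf₀, hf₀0, hf₀V⟩ := exists_gen_max (hOV i) hM₀ hx₀ hx₀0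
  obtain ⟨a₀, ha₀, rfl⟩ := hf₀
  change (a₀ : K) ≠ 0 at hf₀0
  change ∀ m ∈ M₀, m / (a₀ : K) ∈ V i at hf₀V
  have hcoe : ((a₀ * b₁ : B) : K) = (a₀ : K) * (b₁ : K) := rfl
  have hf0 : ((a₀ * b₁ : B) : K) ≠ 0 := by
    rw [hcoe]
    exact mul_ne_zero hf₀0 hg0
  -- the local ring
  obtain ⟨Q', hQ', hle⟩ := hdm i _ ⟨(a₀ : K), ⟨a₀, ha₀, rfl⟩, hf₀0, hf₀V, rfl⟩
  have hQ'' : LR (V i) M (lo (V i).toSubring
      (Pool.Agent.H918R2.Quad.chart B M (b₁ : K)).toSubring) := ⟨_, hg, hg0, hgV, rfl⟩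
  rw [hQ'.unique (hOV i) hQ''] at hle
  have hkey : ∀ a ∈ I₀ * I₁, (a : K) / ((a₀ * b₁ : B) : K) ∈ lo (V i).toSubring
      (Pool.Agent.H918R2.Quad.chart B M (b₁ : K)).toSubring := by
    intro a ha
    refine Submodule.mul_induction_on ha (fun x hx y hy => ?_) fun x y hx hy => ?_
    · have e1 : ((x * y : B) : K) / ((a₀ * b₁ : B) : K) = (x : K) / (a₀ : K) * ((y : K) / (b₁ : K)) := by
        rw [hcoe, div_mul_div_comm]
        rfl
      rw [e1]
      refine Subring.mul_mem _ (hle (le_lo _ _ (Algebra.subset_adjoin ⟨(x : K), ⟨x, hx, rfl⟩, rfl⟩)))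
        (le_lo _ _ (Algebra.subset_adjoin ⟨(y : K), hy, rfl⟩))
    · have e1 : ((x + y : B) : K) / ((a₀ * b₁ : B) : K) =
          (x : K) / ((a₀ * b₁ : B) : K) + (y : K) / ((a₀ * b₁ : B) : K) := by
        rw [← add_div]
        rfl
      rw [e1]
      exact Subring.add_mem _ hx hy
  have hchV := chart_le_V (hOV i) hgV
  refine ⟨a₀ * b₁, Ideal.mul_mem_mul ha₀ hg, fun h => hf0 (by rw [h]; rfl),
    fun a ha => lo_le hchV (hkey a ha), ?_⟩
  have heq : lo (V i).toSubring (Pool.Agent.W418.LU2.chart B (I₀ * I₁) (a₀ * b₁)) =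
      lo (V i).toSubring (Pool.Agent.H918R2.Quad.chart B M (b₁ : K)).toSubring := by
    apply le_antisymm
    · refine lo_le_lo hchV ?_
      refine Subring.closure_le.2 ?_
      rintro z (hz | ⟨a, ha, rfl⟩)
      · exact le_lo _ _ ((Pool.Agent.H918R2.Quad.chart B M (b₁ : K)).algebraMap_mem ⟨z, hz⟩)
      · exact hkey a ha
    · refine lo_mono ?_
      have hBC : ∀ b : B, (b : K) ∈ Pool.Agent.W418.LU2.chart B (I₀ * I₁) (a₀ * b₁) := fun b =>
        Subring.subset_closure (Or.inl b.2)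
      let C' : Subalgebra B K :=
        { Pool.Agent.W418.LU2.chart B (I₀ * I₁) (a₀ * b₁) with algebraMap_mem' := hBC }
      have h1 : Pool.Agent.H918R2.Quad.chart B M (b₁ : K) ≤ C' := Algebra.adjoin_le (by
        rintro _ ⟨m, hm, rfl⟩
        obtain ⟨y, rfl⟩ := hM1 m hm
        refine Subring.subset_closure (Or.inr ⟨a₀ * y, Ideal.mul_mem_mul ha₀ hm, ?_⟩)
        change (y : K) / (b₁ : K) = ((a₀ : K) * (y : K)) / ((a₀ : K) * (b₁ : K))
        rw [mul_div_mul_left _ _ hf₀0])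
      exact h1
  rw [heq]
  exact hreg

end Pool.Agent.U426.PB
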