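import Pool.Agent.U426.PB.A
import Pool.Agent.TH188.QS.Down3

/-!
# The generators at the centres, and the effect of a step
-/

set_option autoImplicit false
set_option linter.unusedVariables false
set_option linter.unusedSectionVars false

namespace Pool.Agent.U426.PB

open IsLocalRing Pool.Agent.TH188.QS Pool.Agent.W418.LU2 Pool.Agent.H918R2.Quad
  Pool.Agent.TH188.ARC Pool.Agent.U426.PA

variable {O F : Type} [CommRing O] [Field F] [Algebra O F]

/-- `g` generates `M` at the centre of `W`, and `Q` is the local ring. -/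
def Lc (W : ValuationSubring F) (M : Submodule O F) (g : F) (Q : Subring F) : Prop :=
  g ∈ M ∧ g ≠ 0 ∧ (∀ m ∈ M, m / g ∈ W) ∧ lo W.toSubring (chart O M g).toSubring = Q

lemma Lc.lr {W : ValuationSubring F} {M : Submodule O F} {g : F} {Q : Subring F}
    (h : Lc W M g Q) : LR W M Q := ⟨g, h.1, h.2.1, h.2.2.1, h.2.2.2⟩

/-- The generator after a quadratic transform. -/
theorem core_gen {W : ValuationSubring F}
    (hOW : ∀ o, algebraMap O F o ∈ W) {ϖ : O} (hϖ0 : algebraMap O F ϖ ≠ 0)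
    (hϖ : W.valuation (algebraMap O F ϖ) < 1) {M : Submodule O F} {j : F}
    (hj : j ∈ M) (hj0 : j ≠ 0) (hMW : ∀ m ∈ M, m / j ∈ W)
    (s : Finset (chart O M j).toSubring)
    (hs : ∀ b : (chart O M j).toSubring,
      b ∈ Ideal.span (s : Set (chart O M j).toSubring) ↔ W.valuation (b : F) < 1)
    (k : ℕ) (hks : ∀ y ∈ s, (y : F) * j ^ k ∈ M ^ k) :
    ∃ y, Mi W.toSubring (lo W.toSubring (chart O M j).toSubring) y ∧
      Lc W (cut W hOW (M ^ (k + 1)) (j ^ (k + 1))) (y * j ^ (k + 1))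
        (qt W.toSubring (lo W.toSubring (chart O M j).toSubring)) := by
  classical
  have hBW := chart_le_V hOW hMW
  have hjk : j ^ (k + 1) ≠ 0 := pow_ne_zero _ hj0
  obtain ⟨g', hg', hg'0, hM'W, -, hlo⟩ := step_core hOW hϖ0 hϖ hj hj0 hMW s hs k hks
  have hϖB : algebraMap O F ϖ ∈ (chart O M j).toSubring :=
    Subalgebra.algebraMap_mem (chart O M j) ϖ
  have hsne : s.Nonempty := by
    by_contra h
    rw [Finset.not_nonempty_iff_eq_empty] at h
    have h1 : (⟨_, hϖB⟩ : (chart O M j).toSubring) ∈ Ideal.span (s : Set (chart O M j).toSubring) :=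
      (hs _).2 hϖ
    rw [h, Finset.coe_empty, Ideal.span_empty, Ideal.mem_bot] at h1
    exact hϖ0 (congrArg Subtype.val h1)
  obtain ⟨y, hys, hymax⟩ := Finset.exists_max_image s (fun y => W.valuation (y : F)) hsne
  have hmin : ∀ b : (chart O M j).toSubring, W.valuation (b : F) < 1 →
      W.valuation (b : F) ≤ W.valuation (y : F) := by
    intro b hb
    rw [← hs] at hb
    induction hb using Submodule.span_induction with
    | mem y hy => exact hymax y hy
    | zero => rw [ZeroMemClass.coe_zero, map_zero]; exact zero_le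
    | add a b _ _ ha hb =>
      rw [Subring.coe_add]
      exact (Valuation.map_add _ _ _).trans (max_le ha hb)
    | smul c a _ ha =>
      rw [smul_eq_mul, Subring.coe_mul, map_mul]
      exact mul_le_of_le_one_of_le ((W.valuation_le_one_iff _).2 (hBW c.2)) ha
  have hy0 : (y : F) ≠ 0 := by
    intro h
    have h1 := hmin ⟨_, hϖB⟩ hϖ
    rw [h, map_zero] at h1
    have h2 : W.valuation (algebraMap O F ϖ) = 0 := le_antisymm h1 zero_le
    exact hϖ0 ((Valuation.zero_iff _).1 h2)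
  have hyW : W.valuation (y : F) < 1 := (hs y).1 (Ideal.subset_span hys)
  have hyk := hks y hys
  have hyM : (y : F) * j ^ (k + 1) ∈ cut W hOW (M ^ (k + 1)) (j ^ (k + 1)) := by
    refine ⟨?_, ?_⟩
    · have h1 : (y : F) * j ^ (k + 1) = (y : F) * j ^ k * j := by rw [pow_succ, mul_assoc]
      rw [h1, pow_succ M]
      exact Submodule.mul_mem_mul hyk hj
    · rw [mul_div_cancel_right₀ _ hjk]
      exact hyW
  have hx0 : (y : F) * j ^ (k + 1) ≠ 0 := mul_ne_zero hy0 hjk
  have hmax : ∀ m ∈ cut W hOW (M ^ (k + 1)) (j ^ (k + 1)), m / ((y : F) * j ^ (k + 1)) ∈ W := by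
    rintro m ⟨hm1, hm2⟩
    have hb := hmin ⟨m / j ^ (k + 1), pow_div_mem hj0 _ m hm1⟩ hm2
    have h1 : m / ((y : F) * j ^ (k + 1)) = m / j ^ (k + 1) * (y : F)⁻¹ := by
      field_simp
    rw [h1, ← W.valuation_le_one_iff, map_mul, map_inv₀]
    exact mul_inv_le_one_of_le₀ hb zero_le
  refine ⟨y, ⟨le_lo _ _ y.2, hy0, (val_lt_iff hy0).1 hyW, ?_⟩, hyM, hx0, hmax, ?_⟩
  · rintro z ⟨a, ha, b, hb, hb0, hbi, rfl⟩ hz
    have h1 : W.valuation (a * b⁻¹) < 1 := nu_iff.1 hz
    have hbi' : b⁻¹ ∈ W := hbi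
    have h2 : W.valuation a < 1 := by
      have h3 : a = a * b⁻¹ * b := by rw [inv_mul_cancel_right₀ hb0]
      rw [h3, map_mul, mul_comm]
      exact mul_lt_one_aux ((W.valuation_le_one_iff _).2 (hBW hb)) h1
    have h4 := hmin ⟨a, ha⟩ h2
    have h5 : a * (y : F)⁻¹ ∈ W := by
      rw [← W.valuation_le_one_iff, map_mul, map_inv₀]
      exact mul_inv_le_one_of_le₀ h4 zero_le
    have h6 : a * b⁻¹ * (y : F)⁻¹ = a * (y : F)⁻¹ * b⁻¹ := by ring
    change a * b⁻¹ * (y : F)⁻¹ ∈ W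
    rw [h6]
    exact W.mul_mem _ _ h5 hbi'
  · rw [← hlo]
    exact lo_chart_eq hOW hyM hx0 hg' hg'0 hmax hM'W

/-- The effect of a step on the local ring at the centre of `W`. -/
theorem step_LR3 [IsNoetherianRing O] [IsDomain O] {V : ValuationSubring F}
    (hOV : ∀ o, algebraMap O F o ∈ V) {ϖ : O} (hϖ0 : algebraMap O F ϖ ≠ 0)
    (hϖ : V.valuation (algebraMap O F ϖ) < 1) {M : Submodule O F} {g : F}
    (hg : g ∈ M) (hg0 : g ≠ 0) (hMV : ∀ m ∈ M, m / g ∈ V) {k : ℕ} (hk : 1 ≤ k)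
    {j : F} (hj : j ∈ M) (hj0 : j ≠ 0)
    (hsj : (∀ m ∈ M, m / j ∈ V) → ∃ s : Finset (chart O M j).toSubring,
      (∀ b : (chart O M j).toSubring,
        b ∈ Ideal.span (s : Set (chart O M j).toSubring) ↔ V.valuation (b : F) < 1) ∧
      ∀ y ∈ s, (y : F) * j ^ k ∈ M ^ k)
    {W : ValuationSubring F} (hOW : ∀ o, algebraMap O F o ∈ W) (hMW : ∀ m ∈ M, m / j ∈ W) :
    (lo W.toSubring (chart O M j).toSubring = lo V.toSubring (chart O M g).toSubring →
      ∃ y, Mi W.toSubring (lo W.toSubring (chart O M j).toSubring) y ∧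
        Lc W (cut V hOV (M ^ (k + 1)) (g ^ (k + 1))) (y * j ^ (k + 1))
        (qt W.toSubring (lo W.toSubring (chart O M j).toSubring))) ∧
    (lo W.toSubring (chart O M j).toSubring ≠ lo V.toSubring (chart O M g).toSubring →
      ¬ Sp M W V → ∃ y, y ≠ 0 ∧ y ∈ lo W.toSubring (chart O M j).toSubring ∧
        y⁻¹ ∈ lo W.toSubring (chart O M j).toSubring ∧
        Lc W (cut V hOV (M ^ (k + 1)) (g ^ (k + 1))) (y * j ^ (k + 1))
          (lo W.toSubring (chart O M j).toSubring)) := by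
  classical
  have hBW := chart_le_V hOW hMW
  have hBVg := chart_le_V hOV hMV
  have hle : cut V hOV (M ^ (k + 1)) (g ^ (k + 1)) ≤ M ^ (k + 1) := fun m hm => hm.1
  have hjg : j / g ∈ V := hMV j hj
  have hjg0 : j / g ≠ 0 := div_ne_zero hj0 hg0
  have hgk : g ^ (k + 1) ≠ 0 := pow_ne_zero _ hg0
  have hjk : j ^ (k + 1) ≠ 0 := pow_ne_zero _ hj0
  by_cases hcase : V.valuation (j / g) < 1
  · -- the chart of `j` does not contain the centre
    have hmem : j ^ (k + 1) ∈ cut V hOV (M ^ (k + 1)) (g ^ (k + 1)) :=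
      ⟨Submodule.pow_mem_pow _ hj _, by
        rw [← div_pow, map_pow]
        exact pow_lt_one₀ zero_le hcase (Nat.succ_ne_zero k)⟩
    obtain ⟨hx0, hM'W, hlo⟩ := other_aux (x := j ^ (k + 1)) hOW hle hj0 hMW hmem (by
        rw [div_self hjk, map_one]
        exact lt_irrefl _) (by
        intro m hm
        have h1 : m / j * j ^ (k + 1) = m * j ^ k := by
          rw [pow_succ]
          field_simp
        rw [h1]
        refine ⟨by rw [pow_succ' M]; exact Submodule.mul_mem_mul hm (Submodule.pow_mem_pow _ hj _),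
          ?_⟩
        have h2 : m * j ^ k / g ^ (k + 1) = m / g * (j / g) ^ k := by
          rw [pow_succ, div_pow]
          field_simp
        rw [h2, map_mul, map_pow]
        exact mul_lt_one_aux ((V.valuation_le_one_iff _).2 (hMV m hm))
          (pow_lt_one₀ zero_le hcase (by omega)))
    refine ⟨fun heq => ?_, fun _ _ => ⟨1, one_ne_zero, Subring.one_mem _,
      by rw [inv_one]; exact Subring.one_mem _,
      by rw [one_mul]; exact ⟨hmem, hx0, hM'W, hlo⟩⟩⟩
    exfalso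
    have h1 : g / j ∈ lo W.toSubring (chart O M j).toSubring :=
      le_lo _ _ (Algebra.subset_adjoin ⟨g, hg, rfl⟩)
    rw [heq] at h1
    have h2 := lo_le hBVg h1
    rw [val_lt_iff hjg0, inv_div] at hcase
    exact hcase h2
  · have hgj : g / j ∈ V := by
      rw [val_lt_iff hjg0, not_not, inv_div] at hcase
      exact hcase
    have hMVj : ∀ m ∈ M, m / j ∈ V := fun m hm => by
      have h1 : m / j = m / g * (g / j) := by field_simp
      rw [h1]
      exact V.mul_mem _ _ (hMV m hm) hgj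
    have hBV := chart_le_V hOV hMVj
    have hVlo : lo V.toSubring (chart O M g).toSubring =
        lo V.toSubring (chart O M j).toSubring := lo_chart_eq hOV hg hg0 hj hj0 hMV hMVj
    have hcut : cut V hOV (M ^ (k + 1)) (g ^ (k + 1)) = cut V hOV (M ^ (k + 1)) (j ^ (k + 1)) := by
      have e1 : ∀ m : F, m / g ^ (k + 1) = (j / g) ^ (k + 1) * (m / j ^ (k + 1)) := fun m => by
        rw [div_pow]; field_simp
      have e2 : ∀ m : F, m / j ^ (k + 1) = (g / j) ^ (k + 1) * (m / g ^ (k + 1)) := fun m => by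
        rw [div_pow]; field_simp
      have l1 : V.valuation ((j / g) ^ (k + 1)) ≤ 1 :=
        (V.valuation_le_one_iff _).2 (V.toSubring.pow_mem hjg _)
      have l2 : V.valuation ((g / j) ^ (k + 1)) ≤ 1 :=
        (V.valuation_le_one_iff _).2 (V.toSubring.pow_mem hgj _)
      ext m
      constructor
      · rintro ⟨h1, h2⟩
        refine ⟨h1, ?_⟩
        rw [e2, map_mul]
        exact mul_lt_one_aux l2 h2
      · rintro ⟨h1, h2⟩
        refine ⟨h1, ?_⟩
        rw [e1, map_mul]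
        exact mul_lt_one_aux l1 h2
    rw [hcut, hVlo]
    obtain ⟨s, hs, hks⟩ := hsj hMVj
    have hle' : cut V hOV (M ^ (k + 1)) (j ^ (k + 1)) ≤ M ^ (k + 1) := fun m hm => hm.1
    by_cases hall : ∀ b : (chart O M j).toSubring, V.valuation (b : F) < 1 ↔
        W.valuation (b : F) < 1
    · -- the centres agree
      have hcutW : cut V hOV (M ^ (k + 1)) (j ^ (k + 1)) =
          cut W hOW (M ^ (k + 1)) (j ^ (k + 1)) := by
        ext m
        constructor
        · rintro ⟨h1, h2⟩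
          exact ⟨h1, (hall ⟨_, pow_div_mem hj0 _ m h1⟩).1 h2⟩
        · rintro ⟨h1, h2⟩
          exact ⟨h1, (hall ⟨_, pow_div_mem hj0 _ m h1⟩).2 h2⟩
      rw [hcutW]
      have hϖW : W.valuation (algebraMap O F ϖ) < 1 :=
        (hall ⟨_, Subalgebra.algebraMap_mem (chart O M j) ϖ⟩).1 hϖ
      refine ⟨fun _ => core_gen hOW hϖ0 hϖW hj hj0 hMW s
        (fun b => (hs b).trans (hall b)) k hks, fun hne _ => absurd ?_ hne⟩
      have hden : ∀ (b : F) (hb : b ∈ (chart O M j).toSubring), b ≠ 0 → (b⁻¹ ∈ W ↔ b⁻¹ ∈ V) := by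
        intro b hb hb0
        have h1 := hall ⟨b, hb⟩
        have h2 : (V.valuation b < 1 ↔ b⁻¹ ∉ V) := val_lt_iff hb0
        have h3 : (W.valuation b < 1 ↔ b⁻¹ ∉ W) := val_lt_iff hb0
        have h4 : V.valuation b < 1 ↔ W.valuation b < 1 := h1
        tauto
      apply le_antisymm
      · rintro _ ⟨a, ha, b, hb, hb0, hbi, rfl⟩
        exact ⟨a, ha, b, hb, hb0, (hden b hb hb0).1 hbi, rfl⟩
      · rintro _ ⟨a, ha, b, hb, hb0, hbi, rfl⟩
        exact ⟨a, ha, b, hb, hb0, (hden b hb hb0).2 hbi, rfl⟩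
    · -- the centres are different
      refine ⟨fun heq => absurd ?_ hall, fun _ hsp => ?_⟩
      · intro b
        have hbQ : (b : F) ∈ lo W.toSubring (chart O M j).toSubring := le_lo _ _ b.2
        have hbQ' : (b : F) ∈ lo V.toSubring (chart O M j).toSubring := le_lo _ _ b.2
        by_cases hb0 : (b : F) = 0
        · rw [hb0, map_zero, map_zero]
          exact ⟨fun _ => zero_lt_one, fun _ => zero_lt_one⟩
        rw [val_lt_iff hb0, val_lt_iff hb0, not_iff_not]
        constructor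
        · intro h1
          have h2 := ic_lo hBV _ hbQ' hb0 h1
          rw [← heq] at h2
          exact lo_le hBW h2
        · intro h1
          have h2 := ic_lo hBW _ hbQ hb0 h1
          rw [heq] at h2
          exact lo_le hBV h2
      have hy : ∃ y ∈ s, ¬ W.valuation (y : F) < 1 := by
        by_contra hcon
        push Not at hcon
        have hVW : ∀ b : (chart O M j).toSubring, V.valuation (b : F) < 1 →
            W.valuation (b : F) < 1 := by
          intro b hb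
          rw [← hs] at hb
          induction hb using Submodule.span_induction with
          | mem y hy => exact hcon y hy
          | zero => rw [ZeroMemClass.coe_zero, map_zero]; exact zero_lt_one
          | add a b _ _ ha hb =>
            rw [Subring.coe_add]
            exact Valuation.map_add_lt _ ha hb
          | smul c a _ ha =>
            rw [smul_eq_mul, Subring.coe_mul, map_mul]
            exact mul_lt_one_aux ((W.valuation_le_one_iff _).2 (hBW c.2)) ha
        exact hsp ⟨j, hj, hj0, hMW, hMVj, fun b hb h => hVW ⟨b, hb⟩ h⟩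
      obtain ⟨y, hys, hyW⟩ := hy
      have hyV : V.valuation (y : F) < 1 := (hs y).1 (Ideal.subset_span hys)
      have hyk := hks y hys
      have hyM : (y : F) * j ^ (k + 1) ∈ cut V hOV (M ^ (k + 1)) (j ^ (k + 1)) := by
        refine ⟨?_, ?_⟩
        · have h1 : (y : F) * j ^ (k + 1) = (y : F) * j ^ k * j := by rw [pow_succ, mul_assoc]
          rw [h1, pow_succ M]
          exact Submodule.mul_mem_mul hyk hj
        · rw [mul_div_cancel_right₀ _ hjk]
          exact hyV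
      obtain ⟨hx0, hM'W, hlo⟩ := other_aux (x := (y : F) * j ^ (k + 1)) hOW hle' hj0 hMW hyM (by
          rw [mul_div_cancel_right₀ _ hjk]
          exact hyW) (by
          intro m hm
          have h1 : m / j * ((y : F) * j ^ (k + 1)) = m * ((y : F) * j ^ k) := by
            rw [pow_succ]
            field_simp
          rw [h1]
          refine ⟨by rw [pow_succ' M]; exact Submodule.mul_mem_mul hm hyk, ?_⟩
          have h2 : m * ((y : F) * j ^ k) / j ^ (k + 1) = m / j * y := by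
            rw [pow_succ]
            field_simp
          rw [h2, map_mul]
          exact mul_lt_one_aux ((V.valuation_le_one_iff _).2 (hMVj m hm)) hyV)
      have hy0 : (y : F) ≠ 0 := fun h => hyW (by rw [h, map_zero]; exact zero_lt_one)
      have hyi : (y : F)⁻¹ ∈ W := by
        by_contra h
        exact hyW ((val_lt_iff hy0).2 h)
      exact ⟨y, hy0, le_lo _ _ y.2, inv_mem_lo hBW (le_lo _ _ y.2) hy0 hyi, hyM, hx0, hM'W, hlo⟩

/-- One step at `V`: the effect on all the local rings. -/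
theorem gstep3 [IsNoetherianRing O] [IsDomain O] {V : ValuationSubring F}
    (hOV : ∀ o, algebraMap O F o ∈ V) {ϖ : O} (hϖ0 : algebraMap O F ϖ ≠ 0)
    (hϖ : V.valuation (algebraMap O F ϖ) < 1) {M : Submodule O F} (hM : M.FG) {QV : Subring F}
    (hQV : LR V M QV) :
    ∃ (D : ℕ) (M' : Submodule O F), 1 ≤ D ∧ M'.FG ∧ M' ≤ M ^ D ∧
      (∀ y ∈ M ^ D, ϖ • y ∈ M') ∧ (∃ g ∈ M', g ≠ 0) ∧
      (∀ W : ValuationSubring F, (∀ o, algebraMap O F o ∈ W) → ∀ Q, LR W M Q →
        ∃ j, Lc W M j Q ∧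
        (Q = QV → ∃ y, Mi W.toSubring Q y ∧ Lc W M' (y * j ^ D) (qt W.toSubring Q)) ∧
        (Q ≠ QV → ¬ Sp M W V → ∃ y, y ≠ 0 ∧ y ∈ Q ∧ y⁻¹ ∈ Q ∧ Lc W M' (y * j ^ D) Q)) ∧
      (∀ W U : ValuationSubring F, (∀ o, algebraMap O F o ∈ W) → (∀ o, algebraMap O F o ∈ U) →
        Sp M' W U → Sp M W U) ∧
      ∀ W : ValuationSubring F, (∀ o, algebraMap O F o ∈ W) → Dm W M M' := by
  classical
  obtain ⟨g, hg, hg0, hMV, rfl⟩ := hQV
  obtain ⟨G, hG⟩ := hM
  have hGM : ∀ j ∈ G, j ∈ M := fun j hj => by rw [← hG]; exact Submodule.subset_span hj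
  have hM : M.FG := ⟨G, hG⟩
  have hk : ∀ j : F, ∃ k₀ : ℕ, j ∈ M → j ≠ 0 → (∀ m ∈ M, m / j ∈ V) →
      ∃ s : Finset (chart O M j).toSubring, (∀ b : (chart O M j).toSubring,
        b ∈ Ideal.span (s : Set (chart O M j).toSubring) ↔ V.valuation (b : F) < 1) ∧
      ∀ k, k₀ ≤ k → ∀ y ∈ s, (y : F) * j ^ k ∈ M ^ k := by
    intro j
    by_cases h : j ∈ M ∧ j ≠ 0 ∧ ∀ m ∈ M, m / j ∈ V
    · obtain ⟨k₀, s, h1, h2⟩ := exists_bound hOV hM h.1 h.2.1 h.2.2
      exact ⟨k₀, fun _ _ _ => ⟨s, h1, h2⟩⟩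
    · exact ⟨0, fun h1 h2 h3 => absurd ⟨h1, h2, h3⟩ h⟩
  choose kk hkk using hk
  set k : ℕ := max 1 (max (kk g) (G.sup kk)) with hkdef
  have hk1 : 1 ≤ k := le_max_left _ _
  have hkg : kk g ≤ k := (le_max_left _ _).trans (le_max_right _ _)
  have hkG : ∀ j ∈ G, kk j ≤ k := fun j hj =>
    (Finset.le_sup hj).trans ((le_max_right _ _).trans (le_max_right _ _))
  obtain ⟨s, hs, hks⟩ := hkk g hg hg0 hMV
  obtain ⟨g', hg', hg'0, hM'V, -, hlo⟩ := step_core hOV hϖ0 hϖ hg hg0 hMV s hs k (hks k hkg)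
  have hBV := chart_le_V hOV hMV
  refine ⟨k + 1, cut V hOV (M ^ (k + 1)) (g ^ (k + 1)), Nat.succ_le_succ (Nat.zero_le _), ?_,
    fun m hm => hm.1, ?_, ⟨g', hg', hg'0⟩, ?_, ?_, ?_⟩
  · have h1 : (M ^ (k + 1)).FG := hM.pow _
    have h2 : IsNoetherian O (M ^ (k + 1) : Submodule O F) := isNoetherian_of_fg_of_noetherian _ h1
    have h3 : IsNoetherian O (cut V hOV (M ^ (k + 1)) (g ^ (k + 1))) :=
      isNoetherian_of_le fun m hm => hm.1
    exact Module.Finite.iff_fg.1 inferInstance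
  · intro y hy
    refine ⟨Submodule.smul_mem _ _ hy, ?_⟩
    rw [Algebra.smul_def, mul_div_assoc, map_mul]
    exact mul_lt_one_aux' hϖ ((V.valuation_le_one_iff _).2 (hBV (pow_div_mem hg0 _ y hy)))
  · rintro W hOW Q ⟨gW, hgW, hgW0, hMgW, hQ⟩
    -- the generator of largest value
    obtain ⟨j, hjG, hj0, hMW⟩ := exists_gen_max' hOW hG hg hg0
    have hjM := hGM j hjG
    have hQj : lo W.toSubring (chart O M j).toSubring = Q := by
      rw [← hQ]
      exact lo_chart_eq hOW hjM hj0 hgW hgW0 hMW hMgW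
    obtain ⟨h1, h2⟩ := step_LR3 hOV hϖ0 hϖ hg hg0 hMV hk1 hjM hj0 (fun h => by
      obtain ⟨s, hs, hks⟩ := hkk j hjM hj0 h
      exact ⟨s, hs, hks k (hkG j hjG)⟩) hOW hMW
    rw [hQj] at h1 h2
    exact ⟨j, ⟨hjM, hj0, hMW, hQj⟩, h1, h2⟩
  · intro W U hOW hOU hsp
    refine Sp.mono hOW hOU ?_ hsp
    obtain ⟨j, hjG, hj0, hMW⟩ := exists_gen_max' hOW hG hg hg0
    have hjM := hGM j hjG
    obtain ⟨x, hx, hx0, hxW, hxc⟩ := step_dom hOV hϖ0 hϖ hg hg0 hMV hk1 hjM hj0 (fun h => by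
      obtain ⟨s, hs, hks⟩ := hkk j hjM hj0 h
      exact ⟨s, hs, hks k (hkG j hjG)⟩) hOW hMW
    exact ⟨j, hjM, hj0, hMW, x, hx, hx0, hxW, hxc⟩
  · rintro W hOW Q ⟨gW, hgW, hgW0, hMgW, hQ⟩
    obtain ⟨j, hjG, hj0, hMW⟩ := exists_gen_max' hOW hG hg hg0
    have hjM := hGM j hjG
    obtain ⟨x, hx, hx0, hxW, hxc⟩ := step_dom hOV hϖ0 hϖ hg hg0 hMV hk1 hjM hj0 (fun h => by
      obtain ⟨s, hs, hks⟩ := hkk j hjM hj0 h
      exact ⟨s, hs, hks k (hkG j hjG)⟩) hOW hMW
    refine ⟨_, ⟨x, hx, hx0, hxW, rfl⟩, ?_⟩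
    rw [← hQ, ← lo_chart_eq hOW hjM hj0 hgW hgW0 hMW hMgW]
    exact lo_mono hxc

end Pool.Agent.U426.PB
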