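import Pool.Agent.U426.PB.C

/-!
# Levels with monomials
-/

set_option autoImplicit false
set_option linter.unusedVariables false
set_option linter.unusedSectionVars false

namespace Pool.Agent.U426.PB

open IsLocalRing Pool.Agent.TH188.QS Pool.Agent.W418.LU2 Pool.Agent.H918R2.Quad
  Pool.Agent.TH188.ARC Pool.Agent.U426.PA

variable {F : Type} [Field F]

/-- The elements of `G` are monomials in the regular local ring `P`. -/
def Mon (W : ValuationSubring F) (P : Subring F) (G : Set F) : Prop :=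
  ∃ (κ : Type) (_ : Fintype κ) (x : κ → F), RegP W.toSubring P x ∧ ∀ h ∈ G, PMon P x h

/-- After `n` quadratic transforms the ring is regular, and the elements of `G` and the
generators of the maximal ideals are monomials. -/
def MoL (W : ValuationSubring F) (Q : Subring F) (G : Set F) (n : ℕ) : Prop :=
  Mon W ((qt W.toSubring)^[n] Q)
    (G ∪ {e | ∃ i < n, Mi W.toSubring ((qt W.toSubring)^[i] Q) e})

lemma it_le {A Q : Subring F} (m : ℕ) : Q ≤ (qt A)^[m] Q := by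
  induction m with
  | zero => exact le_rfl
  | succ m ih =>
    rw [Function.iterate_succ_apply']
    exact ih.trans (le_qt _ _)

lemma it_mono {A Q : Subring F} {m n : ℕ} (h : m ≤ n) : (qt A)^[m] Q ≤ (qt A)^[n] Q := by
  obtain ⟨k, rfl⟩ := Nat.exists_eq_add_of_le h
  rw [Nat.add_comm, Function.iterate_add_apply]
  exact it_le k

lemma Mon.sub {W : ValuationSubring F} {P : Subring F} {G G' : Set F} (h : Mon W P G)
    (hG : G' ⊆ G) : Mon W P G' := by
  obtain ⟨κ, _, x, h1, h2⟩ := h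
  exact ⟨κ, inferInstance, x, h1, fun w hw => h2 w (hG hw)⟩

/-- Closure under products, inverses and units. -/
lemma Mon.gen {W : ValuationSubring F} {P : Subring F} {G G' : Set F} (h : Mon W P G)
    (hG : ∀ (κ : Type) (_ : Fintype κ) (x : κ → F), RegP W.toSubring P x → (∀ h ∈ G, PMon P x h) →
      ∀ h ∈ G', PMon P x h) : Mon W P G' := by
  obtain ⟨κ, _, x, h1, h2⟩ := h
  exact ⟨κ, inferInstance, x, h1, hG κ _ x h1 h2⟩

/-- The quadratic transform of a monomial pair. -/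
lemma Mon.step {W : ValuationSubring F} {P : Subring F} {G : Set F} (h : Mon W P G) {e : F}
    (he : Mi W.toSubring P e) :
    Mon W (qt W.toSubring P) (G ∪ {e | Mi W.toSubring P e}) := by
  obtain ⟨κ, _, x, h1, h2⟩ := h
  obtain ⟨κ', _, x', hx', hmon, hme⟩ := regP_step (loc_V W) h1 he
  refine ⟨κ', inferInstance, x', hx', ?_⟩
  rintro w (hw | hw)
  · exact hmon w (h2 w hw)
  · have hw : Mi W.toSubring P w := hw
    have e1 : w * e⁻¹ ∈ qt W.toSubring P := div_mem_qt he hw.mem hw.NU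
    have e2 : e * w⁻¹ ∈ qt W.toSubring P := div_mem_qt hw he.mem he.NU
    have e3 : w = w * e⁻¹ * e := by rw [inv_mul_cancel_right₀ he.ne]
    rw [e3]
    refine (PMon.unit (mul_ne_zero hw.ne (inv_ne_zero he.ne)) e1 ?_).mul hx'.ne hme
    rw [mul_inv, inv_inv, mul_comm]
    exact e2

/-- Replacing a generator by another one, the local ring being unchanged. -/
lemma MoL.same {W : ValuationSubring F} {Q : Subring F} {S : Set F} {g y : F} {l m : ℕ}
    (h : MoL W Q (insert g S) m) (hy0 : y ≠ 0) (hy : y ∈ Q) (hyi : y⁻¹ ∈ Q) :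
    MoL W Q (insert (y * g ^ l) S) m := by
  refine Mon.gen h fun κ _ x hx hG => ?_
  rintro w ((rfl | hw) | hw)
  · exact (PMon.unit hy0 (it_le m hy) (it_le m hyi)).mul hx.ne
      (Pool.Agent.TH188.QS.PMon.pow hx.ne (hG _ (Or.inl (Or.inl rfl))) l)
  · exact hG w (Or.inl (Or.inr hw))
  · exact hG w (Or.inr hw)

/-- After a quadratic transform. -/
lemma MoL.next {W : ValuationSubring F} {Q : Subring F} {S : Set F} {g y : F} {l m : ℕ}
    (h : MoL W Q (insert g S) m) (hy : Mi W.toSubring Q y) :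
    MoL W (qt W.toSubring Q) (insert (y * g ^ l) S) (m - 1) := by
  rcases m with _ | m
  · have h1 := Mon.step h hy
    change Mon W (qt W.toSubring Q) _
    refine Mon.gen h1 fun κ _ x hx hG => ?_
    rintro w ((rfl | hw) | ⟨i, hi, -⟩)
    · exact (hG _ (Or.inr hy)).mul hx.ne (Pool.Agent.TH188.QS.PMon.pow hx.ne (hG _ (Or.inl (Or.inl (Or.inl rfl)))) l)
    · exact hG w (Or.inl (Or.inl (Or.inr hw)))
    · exact absurd hi (Nat.not_lt_zero i)
  · change Mon W ((qt W.toSubring)^[m] (qt W.toSubring Q)) _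
    rw [← Function.iterate_succ_apply]
    refine Mon.gen h fun κ _ x hx hG => ?_
    rintro w ((rfl | hw) | ⟨i, hi, hw⟩)
    · exact (hG _ (Or.inr ⟨0, Nat.succ_pos m, hy⟩)).mul hx.ne
        (Pool.Agent.TH188.QS.PMon.pow hx.ne (hG _ (Or.inl (Or.inl rfl))) l)
    · exact hG w (Or.inl (Or.inr hw))
    · rw [← Function.iterate_succ_apply] at hw
      exact hG w (Or.inr ⟨i + 1, by omega, hw⟩)

section level

variable {O : Type} [CommRing O] [Algebra O F]

/-- The level with monomials. -/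
def LvM (W : ValuationSubring F) (M : Submodule O F) (S : Set F) (n : ℕ) : Prop :=
  ∃ g Q, Lc W M g Q ∧ ∃ m ≤ n, MoL W Q (insert g S) m

lemma LvM.mono {W : ValuationSubring F} {M : Submodule O F} {S : Set F} {n n' : ℕ}
    (h : LvM W M S n) (hn : n ≤ n') : LvM W M S n' := by
  obtain ⟨g, Q, h1, m, hm, h2⟩ := h
  exact ⟨g, Q, h1, m, hm.trans hn, h2⟩

/-- The effect of a step on the level. -/
lemma lvM_step {W : ValuationSubring F} {M M' : Submodule O F} {QV : Subring F}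
    (hOW : ∀ o, algebraMap O F o ∈ W) {l : ℕ}
    (hstep : ∀ Q, LR W M Q → ∃ j, Lc W M j Q ∧
      (Q = QV → ∃ y, Mi W.toSubring Q y ∧ Lc W M' (y * j ^ l) (qt W.toSubring Q)) ∧
      (Q ≠ QV → ∃ y, y ≠ 0 ∧ y ∈ Q ∧ y⁻¹ ∈ Q ∧ Lc W M' (y * j ^ l) Q)) {S : Set F} {n : ℕ}
    (h : LvM W M S n) :
    LvM W M' S n ∧ (LR W M QV → LvM W M' S (n - 1)) := by
  obtain ⟨g, Q, hLc, m, hm, hmo⟩ := h
  obtain ⟨j, hj, h1, h2⟩ := hstep Q hLc.lr
  -- the generator `j`
  have hjg : j / g ∈ Q := by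
    rw [← hLc.2.2.2]
    exact le_lo _ _ (Algebra.subset_adjoin ⟨j, hj.1, rfl⟩)
  have hgj : g / j ∈ Q := by
    rw [← hj.2.2.2]
    exact le_lo _ _ (Algebra.subset_adjoin ⟨g, hLc.1, rfl⟩)
  have hmo' : MoL W Q (insert j S) m := by
    have h3 := hmo.same (l := 1) (div_ne_zero hj.2.1 hLc.2.1) hjg (by rw [inv_div]; exact hgj)
    rwa [pow_one, div_mul_cancel₀ _ hLc.2.1] at h3
  by_cases hc : Q = QV
  · obtain ⟨y, hy, hLc'⟩ := h1 hc
    have key : LvM W M' S (n - 1) := ⟨_, _, hLc', m - 1, by omega, hmo'.next hy⟩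
    exact ⟨key.mono (by omega), fun _ => key⟩
  · obtain ⟨y, hy0, hy, hyi, hLc'⟩ := h2 hc
    exact ⟨⟨_, _, hLc', m, hm, hmo'.same hy0 hy hyi⟩, fun h => absurd (hLc.lr.unique hOW h) hc⟩

end level

section seq

variable {V : ValuationSubring F} {Q₀ : Subring F}

/-- Monomials from the stage `r` on. -/
def Mo (V : ValuationSubring F) (Q₀ : Subring F) (r n : ℕ) (G : Set F) : Prop :=
  Mon V ((qt V.toSubring)^[n] Q₀)
    (G ∪ {e | ∃ i, r ≤ i ∧ i < n ∧ Mi V.toSubring ((qt V.toSubring)^[i] Q₀) e})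

variable (hQV : ∀ n, (qt V.toSubring)^[n] Q₀ ≤ V.toSubring)
  (hmi : ∀ n, ∃ e, Mi V.toSubring ((qt V.toSubring)^[n] Q₀) e)
  (hdv : Dv V (fun n => (qt V.toSubring)^[n] Q₀))

include hmi in
lemma Mo.step {r n : ℕ} {G : Set F} (h : Mo V Q₀ r n G) : Mo V Q₀ r (n + 1) G := by
  obtain ⟨e, he⟩ := hmi n
  have h1 := Mon.step h he
  unfold Mo
  rw [Function.iterate_succ_apply']
  refine h1.sub ?_
  rintro w (hw | ⟨i, hi, hin, hw⟩)
  · exact Or.inl (Or.inl hw)
  · rcases Nat.lt_succ_iff_lt_or_eq.1 hin with h2 | rfl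
    · exact Or.inl (Or.inr ⟨i, hi, h2, hw⟩)
    · exact Or.inr hw

include hQV hmi hdv in
/-- A nonzero element becomes a monomial. -/
theorem Mo.monomial {r n₀ : ℕ} (hr : r ≤ n₀) {G : Set F} (h : Mo V Q₀ r n₀ G) {a : F}
    (ha : a ∈ (qt V.toSubring)^[n₀] Q₀) (ha0 : a ≠ 0) :
    ∃ n, n₀ ≤ n ∧ Mo V Q₀ r n (insert a G) := by
  classical
  by_contra hcon
  have key : ∀ k, ∃ E : ℕ → F, (∀ i < k, Mi V.toSubring ((qt V.toSubring)^[n₀ + i] Q₀) (E i)) ∧
      a * (∏ i ∈ Finset.range k, E i)⁻¹ ∈ (qt V.toSubring)^[n₀ + k] Q₀ ∧ Mo V Q₀ r (n₀ + k) G := by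
    intro k
    induction k with
    | zero =>
      exact ⟨fun _ => 1, fun i hi => absurd hi (Nat.not_lt_zero i), by simpa using ha, h⟩
    | succ k ih =>
      obtain ⟨E, hE, hEa, hEs⟩ := ih
      obtain ⟨e, he⟩ := hmi (n₀ + k)
      have hPE : ∏ i ∈ Finset.range k, E i ≠ 0 :=
        Finset.prod_ne_zero_iff.2 fun i hi => (hE i (Finset.mem_range.1 hi)).ne
      have hnu : NU V.toSubring (a * (∏ i ∈ Finset.range k, E i)⁻¹) := by
        rintro ⟨h1, h2⟩
        apply hcon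
        refine ⟨n₀ + k, by omega, ?_⟩
        refine Mon.gen hEs fun κ _ x hx hG => ?_
        rintro w ((rfl | hw) | hw)
        · have e1 : w = w * (∏ i ∈ Finset.range k, E i)⁻¹ * ∏ i ∈ Finset.range k, E i := by
            rw [inv_mul_cancel_right₀ hPE]
          rw [e1]
          exact (PMon.unit h1 hEa (hx.inv _ hEa h1 h2)).mul hx.ne
            (Pool.Agent.TH188.QS.PMon.prod hx.ne _ fun i hi => hG _ (Or.inr ⟨n₀ + i, by omega,
              by have := Finset.mem_range.1 hi; omega, hE i (Finset.mem_range.1 hi)⟩))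
        · exact hG w (Or.inl hw)
        · exact hG w (Or.inr hw)
      have hprod : ∏ i ∈ Finset.range (k + 1), Function.update E k e i =
          (∏ i ∈ Finset.range k, E i) * e := by
        rw [Finset.prod_range_succ, Function.update_self]
        congr 1
        refine Finset.prod_congr rfl fun i hi => ?_
        rw [Function.update_of_ne (Finset.mem_range.1 hi).ne]
      refine ⟨Function.update E k e, ?_, ?_, hEs.step hmi⟩
      · intro i hi
        by_cases hik : i = k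
        · subst hik
          rw [Function.update_self]
          exact he
        · rw [Function.update_of_ne hik]
          exact hE i (by omega)
      · rw [hprod, mul_inv, ← mul_assoc]
        have e1 : n₀ + (k + 1) = (n₀ + k) + 1 := rfl
        rw [e1, Function.iterate_succ_apply']
        exact div_mem_qt he hEa hnu
  have hne : ∀ n, ∃ z ∈ (qt V.toSubring)^[n] Q₀, z ≠ 0 ∧ V.valuation z < 1 := fun n => by
    obtain ⟨e, he⟩ := hmi n
    exact ⟨e, he.mem, he.ne, he.lt⟩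
  obtain ⟨n, hn⟩ := hdv.shift n₀ hQV hne a ha0
  obtain ⟨E, hE, hEa, -⟩ := key n
  exact hn E (fun i hi => ⟨(hE i hi).mem, (hE i hi).ne, (hE i hi).lt⟩) (hQV _ hEa)

include hQV hmi hdv in
/-- The level is finite. -/
theorem exists_level {r : ℕ} (hr : IsRegularLocalRing ((qt V.toSubring)^[r] Q₀))
    (hIC : IC V.toSubring ((qt V.toSubring)^[r] Q₀)) {G : Set F} (hG : G.Finite)
    (hGQ : ∀ z ∈ G, ∃ a ∈ Q₀, ∃ b ∈ Q₀, a ≠ 0 ∧ b ≠ 0 ∧ z = a * b⁻¹) :
    ∃ n, MoL V Q₀ G n := by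
  classical
  have hbase : Mo V Q₀ r r ∅ := by
    refine ⟨Empty, inferInstance, Empty.elim, RegP.of_reg (hQV r) hIC hr, ?_⟩
    rintro w (hw | ⟨i, h1, h2, -⟩)
    · exact absurd hw (Set.notMem_empty w)
    · omega
  have hfin : ∀ S : Set F, S.Finite → (∀ w ∈ S, w ∈ (qt V.toSubring)^[r] Q₀ ∧ w ≠ 0) →
      ∃ n, r ≤ n ∧ Mo V Q₀ r n S := by
    intro S hS
    induction S, hS using Set.Finite.induction_on with
    | empty => exact fun _ => ⟨r, le_rfl, hbase⟩
    | insert _ _ ih =>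
      rename_i a S _ _
      intro hSA
      obtain ⟨n, hn, hs⟩ := ih fun w hw => hSA w (Or.inr hw)
      obtain ⟨h1, h2⟩ := hSA a (Or.inl rfl)
      obtain ⟨n', hn', hs'⟩ := hs.monomial hQV hmi hdv hn (it_mono hn h1) h2
      exact ⟨n', hn.trans hn', hs'⟩
  choose e he using hmi
  have hch : ∀ z : F, ∃ a b : F, z ∈ G → a ∈ Q₀ ∧ b ∈ Q₀ ∧ a ≠ 0 ∧ b ≠ 0 ∧ z = a * b⁻¹ := by
    intro z
    by_cases hz : z ∈ G
    · obtain ⟨a, ha, b, hb, ha0, hb0, h⟩ := hGQ z hz
      exact ⟨a, b, fun _ => ⟨ha, hb, ha0, hb0, h⟩⟩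
    · exact ⟨0, 0, fun h => absurd h hz⟩
  choose num den hnd using hch
  obtain ⟨n, hn, hmo⟩ := hfin ((num '' G) ∪ (den '' G) ∪ (e '' Set.Iio r))
    (((hG.image _).union (hG.image _)).union ((Set.finite_Iio r).image _)) (by
      rintro w ((⟨z, hz, rfl⟩ | ⟨z, hz, rfl⟩) | ⟨i, hi, rfl⟩)
      · exact ⟨it_le r (hnd z hz).1, (hnd z hz).2.2.1⟩
      · exact ⟨it_le r (hnd z hz).2.1, (hnd z hz).2.2.2.1⟩
      · exact ⟨it_mono (le_of_lt hi) (he i).mem, (he i).ne⟩)
  refine ⟨n, Mon.gen hmo fun κ _ x hx hM => ?_⟩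
  rintro w (hw | ⟨i, hi, hw⟩)
  · rw [(hnd w hw).2.2.2.2]
    exact (hM _ (Or.inl (Or.inl (Or.inl ⟨w, hw, rfl⟩)))).mul hx.ne
      (hM _ (Or.inl (Or.inl (Or.inr ⟨w, hw, rfl⟩)))).inv
  · by_cases hir : r ≤ i
    · exact hM w (Or.inr ⟨i, hir, hi, hw⟩)
    · have h1 : PMon ((qt V.toSubring)^[n] Q₀) x (e i) :=
        hM _ (Or.inl (Or.inr ⟨i, by exact Nat.lt_of_not_le hir, rfl⟩))
      have hle : qt V.toSubring ((qt V.toSubring)^[i] Q₀) ≤ (qt V.toSubring)^[n] Q₀ := by
        rw [← Function.iterate_succ_apply' (qt V.toSubring)]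
        exact it_mono hi
      have e1 : w * (e i)⁻¹ ∈ (qt V.toSubring)^[n] Q₀ := hle (div_mem_qt (he i) hw.mem hw.NU)
      have e2 : e i * w⁻¹ ∈ (qt V.toSubring)^[n] Q₀ := hle (div_mem_qt hw (he i).mem (he i).NU)
      have e3 : w = w * (e i)⁻¹ * e i := by rw [inv_mul_cancel_right₀ (he i).ne]
      rw [e3]
      refine (PMon.unit (mul_ne_zero hw.ne (inv_ne_zero (he i).ne)) e1 ?_).mul hx.ne h1
      rw [mul_inv, inv_inv, mul_comm]
      exact e2

end seq

end Pool.Agent.U426.PB
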