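import Pool.Agent.U426.PB.D

/-!
# Finitely many valuation rings, with monomials
-/

set_option autoImplicit false
set_option linter.unusedVariables false
set_option linter.unusedSectionVars false

namespace Pool.Agent.U426.PB

open IsLocalRing Pool.Agent.TH188.QS Pool.Agent.W418.LU2 Pool.Agent.H918R2.Quad
  Pool.Agent.TH188.ARC Pool.Agent.U426.PA

variable {O F : Type} [CommRing O] [Field F] [Algebra O F]

/-- An admissible valuation ring: all the models have finite levels. -/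
structure AdM (M₀ : Submodule O F) (W : ValuationSubring F) (S : Set F) : Prop where
  O_mem : ∀ o, algebraMap O F o ∈ W
  pos : ∃ ϖ : O, algebraMap O F ϖ ≠ 0 ∧ W.valuation (algebraMap O F ϖ) < 1
  lev : ∀ (D : ℕ) (M : Submodule O F), Cm M₀ D M → ∃ n, LvM W M S n

/-- The treatment of one trait. -/
theorem one_trait3 [IsNoetherianRing O] [IsDomain O] {M₀ : Submodule O F} {T : Type}
    (W : T → ValuationSubring F) (E : T → Set F) (hW : ∀ t, AdM M₀ (W t) (E t)) (t : T) (n : ℕ) :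
    ∀ {D : ℕ} {M : Submodule O F}, Cm M₀ D M → LvM (W t) M (E t) n →
    ∃ (D' : ℕ) (M' : Submodule O F), Cm M₀ D' M' ∧ LvM (W t) M' (E t) 0 ∧
      (∀ s u, Sp M' (W s) (W u) → Sp M (W s) (W u)) ∧
      (∀ s, ¬ Sp M (W s) (W t) → ∀ k, LvM (W s) M (E s) k → LvM (W s) M' (E s) k) ∧
      ((∀ s u, Sp M (W s) (W u) → Sp M' (W s) (W u)) →
        ∀ s, Sp M (W s) (W t) → Sp M (W t) (W s) → ∀ k, LvM (W s) M (E s) k → LvM (W s) M' (E s) k) ∧
      ∀ s, Dm (W s) M M' := by
  induction n with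
  | zero =>
    intro D M hM h
    exact ⟨D, M, hM, h, fun _ _ h => h, fun _ _ _ h => h, fun _ _ _ _ _ h => h,
      fun _ Q hQ => ⟨Q, hQ, le_rfl⟩⟩
  | succ n ih =>
    intro D M hM h
    obtain ⟨gV, QV, hLcV, hrest⟩ := id h
    have hQV := hLcV.lr
    obtain ⟨ϖ, hϖ0, hϖ⟩ := (hW t).pos
    obtain ⟨D₁, M₁, hD₁, hM₁, hle₁, hϖ₁, hne₁, hst, hsp, hdm⟩ := gstep3 (hW t).O_mem hϖ0 hϖ hM.fg hQV
    have hCm := cm_step hM hD₁ hM₁ hle₁ hϖ0 hϖ₁ hne₁
    have huniq : ∀ Q, LR (W t) M Q → Q = QV := fun Q hQ => hQ.unique (hW t).O_mem hQV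
    have h1 : LvM (W t) M₁ (E t) n := (lvM_step (hW t).O_mem (fun Q hQ => by
      obtain ⟨j, hj, a, b⟩ := hst _ (hW t).O_mem Q hQ
      exact ⟨j, hj, a, fun hne => absurd (huniq Q hQ) hne⟩) h).2 hQV
    have h2 : ∀ s, ¬ Sp M (W s) (W t) → ∀ k, LvM (W s) M (E s) k → LvM (W s) M₁ (E s) k :=
      fun s hs k hk => (lvM_step (hW s).O_mem (fun Q hQ => by
        obtain ⟨j, hj, a, b⟩ := hst _ (hW s).O_mem Q hQ
        exact ⟨j, hj, a, fun hne => b hne hs⟩) hk).1
    have h3 : ∀ s, Sp M (W s) (W t) → Sp M (W t) (W s) → ∀ k, LvM (W s) M (E s) k →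
        LvM (W s) M₁ (E s) k := fun s hs hs' k hk => (lvM_step (hW s).O_mem (fun Q hQ => by
        obtain ⟨j, hj, a, b⟩ := hst _ (hW s).O_mem Q hQ
        exact ⟨j, hj, a, fun hne =>
          absurd (huniq Q (hs.lr (hW s).O_mem (hW t).O_mem hs' hQ)) hne⟩) hk).1
    obtain ⟨D', M', hM', h0, hmono, hp1, hp2, hdm'⟩ := ih hCm h1
    refine ⟨D', M', hM', h0, fun s u hsu => hsp _ _ (hW s).O_mem (hW u).O_mem (hmono s u hsu),
      fun s hs k hk => hp1 s (fun h => hs (hsp _ _ (hW s).O_mem (hW t).O_mem h)) k (h2 s hs k hk),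
      fun hall s hs hs' k hk => hp2 (fun s u h => hall s u (hsp _ _ (hW s).O_mem (hW u).O_mem h)) s
        (hmono _ _ (hall _ _ hs)) (hmono _ _ (hall _ _ hs')) k (h3 s hs hs' k hk),
      fun s => (hdm _ (hW s).O_mem).trans (hdm' s)⟩

/-- The treatment of finitely many traits. -/
theorem all_traits3 [IsNoetherianRing O] [IsDomain O] {M₀ : Submodule O F} {T : Type} [Finite T]
    (W : T → ValuationSubring F) (E : T → Set F) (hW : ∀ t, AdM M₀ (W t) (E t)) (c : ℕ) :
    ∀ {D : ℕ} {M : Submodule O F}, Cm M₀ D M →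
    {x : T × T | Sp M (W x.1) (W x.2)}.ncard = c →
    ∃ (D' : ℕ) (M' : Submodule O F), Cm M₀ D' M' ∧ (∀ t, LvM (W t) M' (E t) 0) ∧
      ∀ t, Dm (W t) M M' := by
  classical
  have := Fintype.ofFinite T
  induction c using Nat.strong_induction_on with
  | _ c ih =>
  intro D M hM hc
  let r : T → ℕ := fun t => (Finset.univ.filter fun s => Sp M (W t) (W s)).card
  have key : ∀ S : Finset T,
      (∃ (D' : ℕ) (M' : Submodule O F), Cm M₀ D' M' ∧ (∀ t, LvM (W t) M' (E t) 0) ∧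
        ∀ t, Dm (W t) M M') ∨
      ∃ (D' : ℕ) (M' : Submodule O F), Cm M₀ D' M' ∧ (∀ t, Dm (W t) M M') ∧
        (∀ s u, Sp M' (W s) (W u) ↔ Sp M (W s) (W u)) ∧ ∀ t ∈ S, LvM (W t) M' (E t) 0 := by
    intro S
    induction S using Finset.induction_on_max_value r with
    | empty => exact Or.inr ⟨D, M, hM, fun _ Q hQ => ⟨Q, hQ, le_rfl⟩,
        fun _ _ => Iff.rfl, fun t ht => absurd ht (Finset.notMem_empty _)⟩
    | insert a S haS hmax hS =>
      rcases hS with hS | ⟨D₂, M₂, hM₂, hd₂, hiff, hS⟩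
      · exact Or.inl hS
      obtain ⟨n, hn⟩ := (hW a).lev D₂ M₂ hM₂
      obtain ⟨D₃, M₃, hM₃, h0, hmono, hp1, hp2, hd₃⟩ := one_trait3 W E hW a n hM₂ hn
      by_cases hall : ∀ s u, Sp M₂ (W s) (W u) → Sp M₃ (W s) (W u)
      · refine Or.inr ⟨D₃, M₃, hM₃, fun s => (hd₂ s).trans (hd₃ s),
          fun s u => ⟨fun h => (hiff s u).1 (hmono s u h),
          fun h => hall s u ((hiff s u).2 h)⟩, fun t ht => ?_⟩
        rcases Finset.mem_insert.1 ht with rfl | ht
        · exact h0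
        · by_cases hta : Sp M₂ (W t) (W a)
          · refine hp2 hall t hta ?_ 0 (hS t ht)
            rw [hiff] at hta ⊢
            have hsub : (Finset.univ.filter fun s => Sp M (W a) (W s)) ⊆
                (Finset.univ.filter fun s => Sp M (W t) (W s)) := by
              intro s hs
              rw [Finset.mem_filter] at hs ⊢
              exact ⟨Finset.mem_univ _, hta.trans' (hW a).O_mem (hW s).O_mem hs.2⟩
            have heq := Finset.eq_of_subset_of_card_le hsub (hmax t ht)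
            have htt : t ∈ (Finset.univ.filter fun s => Sp M (W t) (W s)) :=
              Finset.mem_filter.2 ⟨Finset.mem_univ _, Sp.refl' (hW t).O_mem hM.fg hM.ne⟩
            rw [← heq] at htt
            exact (Finset.mem_filter.1 htt).2
          · exact hp1 t hta 0 (hS t ht)
      · left
        push Not at hall
        obtain ⟨s, u, hsu, hnsu⟩ := hall
        have hlt : {x : T × T | Sp M₃ (W x.1) (W x.2)}.ncard <
            {x : T × T | Sp M (W x.1) (W x.2)}.ncard := by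
          refine Set.ncard_lt_ncard ?_ (Set.toFinite _)
          refine ⟨fun x hx => (hiff _ _).1 (hmono _ _ hx), fun h => hnsu ?_⟩
          exact h (show ((s, u) : T × T) ∈ {x : T × T | Sp M (W x.1) (W x.2)} from
            (hiff _ _).1 hsu)
        obtain ⟨D₄, M₄, hM₄, h1, h2⟩ := ih _ (by rw [← hc]; exact hlt) hM₃ rfl
        exact ⟨D₄, M₄, hM₄, h1, fun t => ((hd₂ t).trans (hd₃ t)).trans (h2 t)⟩
  rcases key Finset.univ with h | ⟨D', M', hM', hd, -, h⟩
  · exact h
  · exact ⟨D', M', hM', fun t => h t (Finset.mem_univ t), hd⟩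

end Pool.Agent.U426.PB
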