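import Pool.Agent.U426.PB.B
import Pool.Agent.U426.PB.E

/-!
# One log desingularization for finitely many divergent valuations
-/

set_option autoImplicit false
set_option linter.unusedVariables false
set_option linter.unusedSectionVars false

namespace Pool.Agent.U426.PB

open IsLocalRing Pool.Agent.TH188.QS Pool.Agent.W418.LU2 Pool.Agent.TH188.ARC
  Pool.Agent.U426.PA

/-- Quotients by the largest element. -/
lemma exists_max {K : Type} [Field K] {B : Subring K} [IsNoetherianRing B]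
    {V : ValuationSubring K} (hBV : B ≤ V.toSubring) (I : Ideal B) (hI : I ≠ ⊥) :
    ∃ d ∈ I, (d : K) ≠ 0 ∧ ∀ a ∈ I, (a : K) / (d : K) ∈ V := by
  have hOV : ∀ o : B, algebraMap B K o ∈ V := fun o => hBV o.2
  obtain ⟨a, ha, ha0⟩ := Submodule.exists_mem_ne_zero_of_ne_bot hI
  have hfg : (Submodule.map (Algebra.linearMap B K) I).FG :=
    Submodule.FG.map _ ((isNoetherianRing_iff_ideal_fg B).1 inferInstance I)
  obtain ⟨j, hj, hj0, hjV⟩ := exists_gen_max hOV hfg (g := (a : K)) ⟨a, ha, rfl⟩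
    (fun h => ha0 (Subtype.ext h))
  obtain ⟨d, hd, rfl⟩ := hj
  exact ⟨d, hd, hj0, fun b hb => hjV _ ⟨b, hb, rfl⟩⟩

/-- One log desingularization for finitely many valuations. -/
theorem main_log {R K : Type} [CommRing R] (hR : HJ R) [Field K] (ρ : R →+* K) {T : Set K}
    (hT : T.Finite) {B : Subring K} (hAB : Subring.closure ((ρ.range : Set K) ∪ T) ≤ B)
    (hBA : ∀ b ∈ B, ∃ a ∈ Subring.closure ((ρ.range : Set K) ∪ T),
      ∃ s ∈ Subring.closure ((ρ.range : Set K) ∪ T), s ≠ 0 ∧ s⁻¹ ∈ B ∧ b = a * s⁻¹)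
    (hfr : ∀ z : K, Fr B z) {ι : Type} [Finite ι] (V : ι → ValuationSubring K)
    (hBV : ∀ i, B ≤ (V i).toSubring) (hne : ∀ i, V i ≠ ⊤)
    (hdv : ∀ i, ∀ T' : Set K, T'.Finite →
      Subring.closure ((ρ.range : Set K) ∪ T') ≤ (V i).toSubring →
      Dv (V i) (qseq (V i) (Subring.closure ((ρ.range : Set K) ∪ T'))))
    (D I₀ : Ideal B) (hD : D ≠ ⊥) (hI₀ : I₀ ≠ ⊥) :
    ∃ I₁ : Ideal B, I₁ ≠ ⊥ ∧ ∀ i, LogDesing (V i) B D (I₀ * I₁) := by
  classical
  have hnoe : IsNoetherianRing B :=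
    (main hR (V := ⊤) ρ hT (B := B) (fun _ _ => trivial) hAB hBA (Or.inl ⟨0, rfl⟩)).2
  have hfrA : ∀ z : K, Fr (Subring.closure ((ρ.range : Set K) ∪ T)) z := by
    intro z
    obtain ⟨a, ha, b, hb, hb0, rfl⟩ := hfr z
    obtain ⟨a₁, ha₁, s₁, hs₁, hs₁0, -, rfl⟩ := hBA a ha
    obtain ⟨a₂, ha₂, s₂, hs₂, hs₂0, -, rfl⟩ := hBA b hb
    have ha₂0 : a₂ ≠ 0 := fun h => hb0 (by rw [h, zero_mul])
    refine ⟨a₁ * s₂, Subring.mul_mem _ ha₁ hs₂, s₁ * a₂, Subring.mul_mem _ hs₁ ha₂,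
      mul_ne_zero hs₁0 ha₂0, ?_⟩
    field_simp
  have hOV : ∀ i, ∀ o : B, algebraMap B K o ∈ V i := fun i o => hBV i o.2
  have hpos : ∀ i, ∃ ϖ : B, (ϖ : K) ≠ 0 ∧ (V i).valuation (ϖ : K) < 1 := by
    intro i
    obtain ⟨z, hz⟩ : ∃ z : K, z ∉ V i := by
      by_contra hcon
      push Not at hcon
      exact hne i (eq_top_iff.2 fun z _ => hcon z)
    obtain ⟨a, ha, b, hb, hb0, rfl⟩ := hfr z
    refine ⟨⟨b, hb⟩, hb0, ?_⟩
    by_contra hcon
    apply hz
    have h1 : b⁻¹ ∈ V i := by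
      by_contra h2
      exact hcon ((val_lt_iff hb0).2 h2)
    exact (V i).mul_mem _ _ (hBV i ha) h1
  choose d hd hd0 hdV using fun i => exists_max (hBV i) D hD
  choose f hf hf0 hfV using fun i => exists_max (hBV i) I₀ hI₀
  -- the submodule
  set M₀ : Submodule B K := Submodule.map (Algebra.linearMap B K) (D * I₀) with hM₀def
  have hM₀ : M₀.FG := Submodule.FG.map _ ((isNoetherianRing_iff_ideal_fg B).1 hnoe (D * I₀))
  have hM₀ne : ∃ g ∈ M₀, g ≠ 0 := by
    have h1 : D * I₀ ≠ ⊥ := mul_ne_zero hD hI₀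
    obtain ⟨a, ha, ha0⟩ := Submodule.exists_mem_ne_zero_of_ne_bot h1
    exact ⟨a, ⟨a, ha, rfl⟩, fun h => ha0 (Subtype.ext h)⟩
  let E : ι → Set K := fun i => {(d i : K), (f i : K)}
  have hAd : ∀ i, AdM M₀ (V i) (E i) := by
    intro i
    obtain ⟨ϖ, hϖ0, hϖ⟩ := hpos i
    refine ⟨hOV i, ⟨ϖ, hϖ0, hϖ⟩, ?_⟩
    intro D M hM
    obtain ⟨g₀, hg₀, hg₀0⟩ := hM.ne
    obtain ⟨g, hg, hg0, hMW⟩ := exists_gen_max (hOV i) hM.fg hg₀ hg₀0
    obtain ⟨N, m, hm⟩ := exists_fin_family hM.fg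
    let T' : Set K := T ∪ Set.range fun j => m j / g
    have hT' : T'.Finite := hT.union (Set.finite_range _)
    have hch : (Pool.Agent.H918R2.Quad.chart B M g).toSubring =
        Subring.closure (((algebraMap B K).range : Set K) ∪ Set.range fun j => m j / g) := by
      rw [← hm, chart_span, adjoin_toSubring]
    have hle' : B ≤ (Pool.Agent.H918R2.Quad.chart B M g).toSubring := fun b hb =>
      (Pool.Agent.H918R2.Quad.chart B M g).algebraMap_mem ⟨b, hb⟩
    have hchV : (Pool.Agent.H918R2.Quad.chart B M g).toSubring ≤ (V i).toSubring :=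
      chart_le_V (hOV i) hMW
    have hA'ch : Subring.closure ((ρ.range : Set K) ∪ T') ≤
        (Pool.Agent.H918R2.Quad.chart B M g).toSubring := by
      rw [Subring.closure_le]
      rintro z (hz | hz | hz)
      · exact hle' (hAB (Subring.subset_closure (Or.inl hz)))
      · exact hle' (hAB (Subring.subset_closure (Or.inr hz)))
      · rw [hch]
        exact Subring.subset_closure (Or.inr hz)
    have hV' : Subring.closure ((ρ.range : Set K) ∪ T') ≤ (V i).toSubring := hA'ch.trans hchV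
    have hAA' : Subring.closure ((ρ.range : Set K) ∪ T) ≤
        Subring.closure ((ρ.range : Set K) ∪ T') := by
      refine Subring.closure_mono ?_
      rintro w (hw | hw)
      · exact Or.inl hw
      · exact Or.inr (Or.inl hw)
    have hlo : lo (V i).toSubring (Pool.Agent.H918R2.Quad.chart B M g).toSubring =
        lo (V i).toSubring (Subring.closure ((ρ.range : Set K) ∪ T')) := by
      refine le_antisymm (lo_le_lo hV' ?_) (lo_mono hA'ch)
      rw [hch, Subring.closure_le]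
      rintro z (⟨b, rfl⟩ | hz)
      · obtain ⟨a, ha, s, hs, hs0, hsB, h⟩ := hBA b b.2
        exact ⟨a, hAA' ha, s, hAA' hs, hs0, hBV i hsB, h⟩
      · exact le_lo _ _ (Subring.subset_closure (Or.inr (Or.inr hz)))
    have hq : qseq (V i) (Pool.Agent.H918R2.Quad.chart B M g).toSubring =
        qseq (V i) (Subring.closure ((ρ.range : Set K) ∪ T')) := by
      funext n
      induction n with
      | zero => exact hlo
      | succ n ih => exact congrArg (qt (V i).toSubring) ih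
    have hdv' := hdv i T' hT' hV'
    obtain ⟨ϖ', hϖ'A, hϖ'0, hϖ'⟩ : ∃ y ∈ Subring.closure ((ρ.range : Set K) ∪ T'), y ≠ 0 ∧
        (V i).valuation y < 1 := by
      obtain ⟨a, ha, s, hs, hs0, hsB, h⟩ := hBA ϖ ϖ.2
      have hsV : s ∈ V i := hV' (hAA' hs)
      have ha0 : a ≠ 0 := fun h0 => hϖ0 (by
        rw [h, h0, zero_mul])
      refine ⟨a, hAA' ha, ha0, ?_⟩
      have h1 : a = s * (ϖ : K) := by
        rw [h]
        field_simp
      rw [h1, map_mul]
      exact mul_lt_one_aux ((V i).valuation_le_one_iff _ |>.2 hsV) hϖ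
    obtain ⟨r, hr⟩ := reg_seq hR ρ hT' (fun z => by
      obtain ⟨a, ha, b, hb, hb0, h⟩ := hfrA z
      exact ⟨a, hAA' ha, b, hAA' hb, hb0, h⟩) hV' ⟨ϖ', hϖ'A, hϖ'0, hϖ'⟩ hdv'
    rw [← hq] at hr hdv'
    have hnoe' : IsNoetherianRing (Pool.Agent.H918R2.Quad.chart B M g).toSubring :=
      chart_noeth hM.fg g
    have hne0 : ∃ y ∈ (Pool.Agent.H918R2.Quad.chart B M g).toSubring, y ≠ 0 ∧
        (V i).valuation y < 1 := ⟨ϖ, hle' ϖ.2, hϖ0, hϖ⟩
    obtain ⟨hQV, hmono, hAQ, hIC, -⟩ := seq_basic (Q := qseq (V i)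
      (Pool.Agent.H918R2.Quad.chart B M g).toSubring) hchV hne0 rfl (fun n => rfl)
    obtain ⟨-, hmi⟩ := seq_fg (Q := qseq (V i)
      (Pool.Agent.H918R2.Quad.chart B M g).toSubring) hchV hne0 rfl (fun n => rfl)
    have hIC' := hIC r
    have hfun : qseq (V i) (Pool.Agent.H918R2.Quad.chart B M g).toSubring = fun n =>
        (qt (V i).toSubring)^[n] (lo (V i).toSubring
          (Pool.Agent.H918R2.Quad.chart B M g).toSubring) := funext fun n => qseq_eq _ _ n
    rw [hfun] at hdv' hQV hmi hIC' hr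
    have hBQ : ∀ b ∈ B, b ∈ lo (V i).toSubring (Pool.Agent.H918R2.Quad.chart B M g).toSubring :=
      fun b hb => le_lo _ _ (hle' hb)
    obtain ⟨n, hn⟩ := exists_level (fun n => hQV n) (fun n => hmi n) hdv' hr hIC'
      (G := insert g (E i)) ((Set.finite_singleton _).insert _ |>.insert _) (by
        rintro z (rfl | rfl | rfl)
        · obtain ⟨a, ha, b, hb, hb0, h⟩ := hfr z
          refine ⟨a, hBQ a ha, b, hBQ b hb, ?_, hb0, h⟩
          rintro rfl
          exact hg0 (by rw [h, zero_mul])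
        · exact ⟨_, hBQ _ (d i).2, 1, Subring.one_mem _, hd0 i, one_ne_zero,
            by rw [inv_one, mul_one]⟩
        · exact ⟨_, hBQ _ (f i).2, 1, Subring.one_mem _, hf0 i, one_ne_zero,
            by rw [inv_one, mul_one]⟩)
    exact ⟨n, g, _, ⟨hg, hg0, hMW, rfl⟩, n, le_rfl, hn⟩
  obtain ⟨D', M, hM, hlv, hdm⟩ := all_traits3 V E hAd _ (Cm.init hM₀ hM₀ne) rfl
  -- the ideal
  have hM₀1 : M₀ ≤ 1 := by
    rintro x ⟨a, ha, rfl⟩
    exact Submodule.mem_one.2 ⟨a, rfl⟩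
  have hM1 : ∀ x ∈ M, ∃ b : B, (b : K) = x := fun x hx =>
    Submodule.mem_one.1 (((hM.le.trans (pow_le_pow_left' hM₀1 D')).trans (one_pow D').le) hx)
  let I₁ : Ideal B := M.comap (Algebra.linearMap B K)
  refine ⟨I₁, ?_, fun i => ?_⟩
  · obtain ⟨g, hg, hg0⟩ := hM.ne
    obtain ⟨b, rfl⟩ := hM1 g hg
    intro h
    have h1 : b ∈ I₁ := hg
    rw [h, Ideal.mem_bot] at h1
    exact hg0 (by rw [h1]; rfl)
  obtain ⟨g, Q, hLc, m, hm, hmo⟩ := hlv i
  obtain rfl : m = 0 := by omega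
  obtain ⟨κ, _, x, hx, hG⟩ := hmo
  change RegP (V i).toSubring Q x at hx
  obtain ⟨hg, hg0, hgV, hQ⟩ := hLc
  obtain ⟨b₁, rfl⟩ := hM1 g hg
  have hgm : PMon Q x (b₁ : K) := hG _ (Or.inl (Or.inl rfl))
  have hdm' : PMon Q x (d i : K) := hG _ (Or.inl (Or.inr (Or.inl rfl)))
  have hfm : PMon Q x (f i : K) := hG _ (Or.inl (Or.inr (Or.inr rfl)))
  -- domination
  have hdf : ((d i * f i : B) : K) = (d i : K) * (f i : K) := rfl
  have hdf0 : ((d i * f i : B) : K) ≠ 0 := by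
    rw [hdf]
    exact mul_ne_zero (hd0 i) (hf0 i)
  have hdfV : ∀ m ∈ M₀, m / ((d i * f i : B) : K) ∈ V i := by
    rintro _ ⟨a, ha, rfl⟩
    change (a : K) / ((d i * f i : B) : K) ∈ V i
    refine Submodule.mul_induction_on ha (fun x hx y hy => ?_) fun x y hx hy => ?_
    · have e1 : ((x * y : B) : K) / ((d i * f i : B) : K) =
          (x : K) / (d i : K) * ((y : K) / (f i : K)) := by
        rw [hdf, div_mul_div_comm]
        rfl
      rw [e1]
      exact (V i).mul_mem _ _ (hdV i x hx) (hfV i y hy)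
    · have e1 : ((x + y : B) : K) / ((d i * f i : B) : K) =
          (x : K) / ((d i * f i : B) : K) + (y : K) / ((d i * f i : B) : K) := by
        rw [← add_div]
        rfl
      rw [e1]
      exact (V i).add_mem _ _ hx hy
  obtain ⟨Q', hQ', hle⟩ := hdm i _ ⟨((d i * f i : B) : K), ⟨_, Ideal.mul_mem_mul (hd i) (hf i), rfl⟩,
    hdf0, hdfV, rfl⟩
  have hQ'' : LR (V i) M Q := ⟨_, hg, hg0, hgV, hQ⟩
  rw [hQ'.unique (hOV i) hQ''] at hle
  have hDQ : ∀ a ∈ D, (a : K) / (d i : K) ∈ Q := by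
    intro a ha
    have e1 : (a : K) / (d i : K) = ((a * f i : B) : K) / ((d i * f i : B) : K) := by
      change _ = ((a : K) * (f i : K)) / ((d i : K) * (f i : K))
      rw [mul_div_mul_right _ _ (hf0 i)]
    rw [e1]
    exact hle (le_lo _ _ (Algebra.subset_adjoin
      ⟨((a * f i : B) : K), ⟨_, Ideal.mul_mem_mul ha (hf i), rfl⟩, rfl⟩))
  have hIQ : ∀ a ∈ I₀, (a : K) / (f i : K) ∈ Q := by
    intro a ha
    have e1 : (a : K) / (f i : K) = ((d i * a : B) : K) / ((d i * f i : B) : K) := by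
      change _ = ((d i : K) * (a : K)) / ((d i : K) * (f i : K))
      rw [mul_div_mul_left _ _ (hd0 i)]
    rw [e1]
    exact hle (le_lo _ _ (Algebra.subset_adjoin
      ⟨((d i * a : B) : K), ⟨_, Ideal.mul_mem_mul (hd i) ha, rfl⟩, rfl⟩))
  have hcoe : ((f i * b₁ : B) : K) = (f i : K) * (b₁ : K) := rfl
  have hfb0 : ((f i * b₁ : B) : K) ≠ 0 := by
    rw [hcoe]
    exact mul_ne_zero (hf0 i) hg0
  have hchQ : (Pool.Agent.H918R2.Quad.chart B M (b₁ : K)).toSubring ≤ Q := by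
    rw [← hQ]
    exact le_lo _ _
  have hkey : ∀ a ∈ I₀ * I₁, (a : K) / ((f i * b₁ : B) : K) ∈ Q := by
    intro a ha
    refine Submodule.mul_induction_on ha (fun x hx y hy => ?_) fun x y hx hy => ?_
    · have e1 : ((x * y : B) : K) / ((f i * b₁ : B) : K) =
          (x : K) / (f i : K) * ((y : K) / (b₁ : K)) := by
        rw [hcoe, div_mul_div_comm]
        rfl
      rw [e1]
      exact Subring.mul_mem _ (hIQ x hx)
        (hchQ (Algebra.subset_adjoin ⟨(y : K), hy, rfl⟩))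
    · have e1 : ((x + y : B) : K) / ((f i * b₁ : B) : K) =
          (x : K) / ((f i * b₁ : B) : K) + (y : K) / ((f i * b₁ : B) : K) := by
        rw [← add_div]
        rfl
      rw [e1]
      exact Subring.add_mem _ hx hy
  have hchV := chart_le_V (hOV i) hgV
  have heq : lo (V i).toSubring (Pool.Agent.W418.LU2.chart B (I₀ * I₁) (f i * b₁)) = Q := by
    rw [← hQ]
    apply le_antisymm
    · refine lo_le_lo hchV ?_
      refine Subring.closure_le.2 ?_
      rintro z (hz | ⟨a, ha, rfl⟩)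
      · exact le_lo _ _ ((Pool.Agent.H918R2.Quad.chart B M (b₁ : K)).algebraMap_mem ⟨z, hz⟩)
      · rw [hQ]
        exact hkey a ha
    · refine lo_mono ?_
      have hBC : ∀ b : B, (b : K) ∈ Pool.Agent.W418.LU2.chart B (I₀ * I₁) (f i * b₁) := fun b =>
        Subring.subset_closure (Or.inl b.2)
      let C' : Subalgebra B K :=
        { Pool.Agent.W418.LU2.chart B (I₀ * I₁) (f i * b₁) with algebraMap_mem' := hBC }
      have h1 : Pool.Agent.H918R2.Quad.chart B M (b₁ : K) ≤ C' := Algebra.adjoin_le (by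
        rintro _ ⟨m, hm, rfl⟩
        obtain ⟨y, rfl⟩ := hM1 m hm
        refine Subring.subset_closure (Or.inr ⟨f i * y, Ideal.mul_mem_mul (hf i) hm, ?_⟩)
        change (y : K) / (b₁ : K) = ((f i : K) * (y : K)) / ((f i : K) * (b₁ : K))
        rw [mul_div_mul_left _ _ (hf0 i)])
      exact h1
  refine logDesing_of (Ideal.mul_mem_mul (hf i) hg) (fun h => hfb0 (by rw [h]; rfl))
    (fun a ha => hx.PA (hkey a ha)) (hd i) (fun h => hd0 i (by rw [h]; rfl)) heq hx hDQ ?_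
  rw [hcoe]
  exact hdm'.mul hx.ne (hfm.mul hx.ne hgm)

end Pool.Agent.U426.PB
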